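import Pool.Agent.L0h4.AP.Lin
import Pool.Agent.L0h4.TW.Val

/-!
# The square of the central value lies in `ℚ(√-7)`: the automorphisms
-/

set_option autoImplicit false
set_option linter.unusedSectionVars false

open Filter
open scoped Topology PeriodPair

namespace Pool.Agent.L0h4.AP

open H667R3 Pool.Agent.W245.EB Pool.Agent.W192.HK Pool.Agent.TH936.CM
open Pool.Agent.W192.CM (nu)

section

variable {R : Subring ℂ} {L : PeriodPair} {Ω : ℂ}

/-- the exact formula for the central value -/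
theorem cenV (h1 : H_BASIC) (h2 : H_FP) (h3 : H_CNT) (h4 : H_DEC) (h5 : H_AFE) {ω : ℂ}
    (hR : QR R ω) (hL : IsLat L R Ω) {q : Ideal R} {s : Finset (Ideal R)}
    {hh : Ideal R} {μ : R} {T : Finset R} (hS : Sys q s hh μ T) {n : ℕ} (hn : 0 < n)
    (hnq : (n : R) ∈ q) (hnb : ∀ b ∈ s, (n : R) ∈ b) {k : ℕ} (hk : k = n + 1)
    [Fintype (R ⧸ sp (n : R))] [Fintype (R ⧸ sp (k : R))] {θ : Ideal R → ℂ} (hθ : HC 1 q θ) :
    ∃ F : ℂ → ℂ, Differentiable ℂ F ∧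
      (∀ z : ℂ, 3 / 2 < z.re → HasSum (fun I : Ideal R => θ I * (nm I : ℂ) ^ (-z)) (F z)) ∧
      (starRingEnd ℂ) (F 1) / Ω = (∑ b ∈ s, θ b * AA L Ω n k (cb θ b)) /
        (2 * (nu R : ℂ) * n * (k - (k : ℂ) ^ 2)) := by
  obtain ⟨F, hF1, hF2, hF3⟩ := lim_L h1 h2 h3 h4 h5 hR hθ hS
  refine ⟨F, hF1, hF2, ?_⟩
  obtain ⟨-, -, b3, -, b5, -, -, -, b9⟩ := h1 R ω hR
  have hk0 : 0 < k := by omega
  have hk' : k = n * 1 + 1 := by omega
  have hkR : (0 : ℝ) < k := by exact_mod_cast hk0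
  have hΩ := hL.ne
  have hnC : (n : ℂ) ≠ 0 := by exact_mod_cast hn.ne'
  have hcard : (Fintype.card (R ⧸ sp (k : R)) : ℂ) = k ^ 2 := by
    have h6 := b5 (k : R)
    unfold nm at h6
    rw [Nat.card_eq_fintype_card] at h6
    have h7 : (((k : R) : ℂ)) = (k : ℂ) := by push_cast; rfl
    rw [h7, Complex.normSq_natCast] at h6
    have h8 : ((Fintype.card (R ⧸ sp (k : R)) : ℝ) : ℂ) = ((k : ℝ) * (k : ℝ) : ℝ) := by
      rw [h6]
    push_cast at h8
    rw [h8]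
    ring
  set T' : ℝ → ℂ := fun δ => ∑ b ∈ s, θ b * SS (cb θ b) (δ / nm b) with hT'
  -- first limit
  have hl1 : Tendsto (fun δ : ℝ => ∑ b ∈ s, θ b * (k * (n / Ω) * SS (cb θ b) (δ / nm b / k ^ 2) -
      (Fintype.card (R ⧸ sp (k : R)) : ℂ) * (n / Ω) * SS (cb θ b) (δ / nm b))) (𝓝[>] 0)
      (𝓝 (∑ b ∈ s, θ b * ((1 / 2) * AA L Ω n k (cb θ b)))) := by
    refine tendsto_finsetSum _ fun b hb => Tendsto.const_mul _ ?_
    obtain ⟨g1, g2, g3⟩ := cb_facts h2 hR hθ hnq (hnb b hb)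
    have hbp : 0 < nm b := by linarith [b3 b (hS.cs.ne b hb)]
    have h6 := lim_A hL hn hk' (cb θ b) g1 g2 g3
    refine h6.comp ?_
    rw [tendsto_nhdsWithin_iff]
    constructor
    · have h7 : Continuous (fun δ : ℝ => δ / nm b) := by fun_prop
      have h8 := (h7.tendsto 0).mono_left (nhdsWithin_le_nhds (s := Set.Ioi 0))
      simpa using h8
    · filter_upwards [self_mem_nhdsWithin] with δ (hδ : 0 < δ)
      show 0 < δ / nm b
      positivity
  -- second limit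
  have hl2 : Tendsto (fun δ : ℝ => k * (n / Ω) * T' (δ / k ^ 2) -
      (Fintype.card (R ⧸ sp (k : R)) : ℂ) * (n / Ω) * T' δ) (𝓝[>] 0)
      (𝓝 (k * (n / Ω) * ((nu R : ℂ) * (starRingEnd ℂ) (F 1)) -
        (Fintype.card (R ⧸ sp (k : R)) : ℂ) * (n / Ω) *
        ((nu R : ℂ) * (starRingEnd ℂ) (F 1)))) := by
    refine Tendsto.sub (Tendsto.const_mul _ (hF3.comp ?_)) (Tendsto.const_mul _ hF3)
    rw [tendsto_nhdsWithin_iff]
    constructor
    · have h7 : Continuous (fun δ : ℝ => δ / (k : ℝ) ^ 2) := by fun_prop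
      have h8 := (h7.tendsto 0).mono_left (nhdsWithin_le_nhds (s := Set.Ioi 0))
      simpa using h8
    · filter_upwards [self_mem_nhdsWithin] with δ (hδ : 0 < δ)
      show 0 < δ / (k : ℝ) ^ 2
      positivity
  have heq : ∀ δ : ℝ, ∑ b ∈ s, θ b * (k * (n / Ω) * SS (cb θ b) (δ / nm b / k ^ 2) -
      (Fintype.card (R ⧸ sp (k : R)) : ℂ) * (n / Ω) * SS (cb θ b) (δ / nm b)) =
      k * (n / Ω) * T' (δ / k ^ 2) -
      (Fintype.card (R ⧸ sp (k : R)) : ℂ) * (n / Ω) * T' δ := by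
    intro δ
    simp only [hT']
    rw [Finset.mul_sum, Finset.mul_sum, ← Finset.sum_sub_distrib]
    refine Finset.sum_congr rfl fun b _ => ?_
    rw [div_right_comm]
    ring
  have hu := tendsto_nhds_unique hl1 (hl2.congr fun δ => (heq δ).symm)
  have hν : (nu R : ℂ) ≠ 0 := by
    have : nu R ≠ 0 := by
      unfold nu
      have := b9
      exact Nat.card_pos.ne'
    exact_mod_cast this
  have hconst : (k : ℂ) * (n / Ω) - (Fintype.card (R ⧸ sp (k : R)) : ℂ) * (n / Ω) ≠ 0 := by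
    rw [← sub_mul, hcard]
    refine mul_ne_zero ?_ (div_ne_zero hnC hΩ)
    rw [hk]
    push_cast
    have e : ((n : ℂ) + 1) - (n + 1) ^ 2 = -(n * (n + 1)) := by ring
    rw [e, neg_ne_zero]
    refine mul_ne_zero hnC ?_
    exact_mod_cast Nat.succ_ne_zero n
  have hu2 : (1 / 2 : ℂ) * ∑ b ∈ s, θ b * AA L Ω n k (cb θ b) =
      ((k : ℂ) * (n / Ω) - (Fintype.card (R ⧸ sp (k : R)) : ℂ) * (n / Ω)) *
      ((nu R : ℂ) * (starRingEnd ℂ) (F 1)) := by
    rw [sub_mul, ← hu, Finset.mul_sum]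
    refine Finset.sum_congr rfl fun b _ => ?_
    ring
  have hkk : ((k : ℂ) - (k : ℂ) ^ 2) ≠ 0 := by
    intro h6
    apply hconst
    rw [← sub_mul, hcard, h6, zero_mul]
  rw [hcard] at hu2
  rw [eq_div_iff (mul_ne_zero (mul_ne_zero (mul_ne_zero two_ne_zero hν) hnC) hkk)]
  field_simp at hu2 ⊢
  linear_combination -hu2

end

end Pool.Agent.L0h4.AP
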