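import Pool.Agent.L0h4.AP.Cen
import Pool.Agent.TH936.CM.Fin

/-!
# The square of the central value lies in `ℚ(√-7)`: the automorphisms, second part
-/

set_option autoImplicit false
set_option linter.unusedSectionVars false

open Filter
open scoped Topology PeriodPair

namespace Pool.Agent.L0h4.AP

open H667R3 Pool.Agent.W245.EB Pool.Agent.W192.HK Pool.Agent.TH936.CM
open Pool.Agent.W192.CM (nu)

section

variable {R : Subring ℂ} {L : PeriodPair} {Ω : ℂ}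

theorem galV (h2 : H_FP) {ω : ℂ} (hR : QR R ω) (hL : IsLat L R Ω) {q : Ideal R}
    {s : Finset (Ideal R)} {n k : ℕ} (hn : 0 < n) (hk : 0 < k) (hnq : (n : R) ∈ q)
    (hnb : ∀ b ∈ s, (n : R) ∈ b) [Fintype (R ⧸ sp (n : R))] [Fintype (R ⧸ sp (k : R))]
    (hfin : Finite (R ⧸ sp ((n * k : ℕ) : R))) {σ : ℂ ≃+* ℂ} (hσR : ∀ r : R, σ (r : ℂ) = r)
    (hσ2 : σ L.g₂ = L.g₂) (hσ3 : σ L.g₃ = L.g₃)
    (hlin : ∀ z z', Rl L σ z z' → ∀ r : R, Rl L σ (r * z) (r * z')) {θ θ' : Ideal R → ℂ}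
    (hθ : HC 1 q θ) (hθ' : HC 1 q θ') (hσθ : ∀ I, σ (θ I) = θ' I) :
    ∃ u : R, IsCoprime (sp u) q ∧ (starRingEnd ℂ) (fp 1 θ' u) *
      σ (∑ b ∈ s, θ b * AA L Ω n k (cb θ b)) = ∑ b ∈ s, θ' b * AA L Ω n k (cb θ' b) := by
  have hnk : 0 < n * k := Nat.mul_pos hn hk
  obtain ⟨u, v, huv, hu⟩ := exists_unit hL σ hσ2 hσ3 hlin (n * k) hnk hfin
  have hq1 : HC (2 * 1 - 1) q θ := hθ
  have hq1' : HC (2 * 1 - 1) q θ' := hθ'
  have hqt := hq1.ne_top le_rfl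
  obtain ⟨-, f2, f3, f4, f5⟩ := h2 R ω hR 1 q θ hθ hqt
  obtain ⟨-, f2', f3', f4', f5'⟩ := h2 R ω hR 1 q θ' hθ' hqt
  have hfp : ∀ x : R, σ (fp 1 θ x) = fp 1 θ' x := by
    intro x
    unfold fp
    rw [map_div₀, map_pow, hσθ, hσR]
  have hconj : ∀ (φ : Ideal R → ℂ), (∀ α : R, fp 1 φ α = 0 ↔ ¬ IsCoprime (sp α) q) →
      (∀ α : R, IsCoprime (sp α) q → ‖fp 1 φ α‖ = 1) → ∀ x : R,
      (starRingEnd ℂ) (fp 1 φ x) = (fp 1 φ x)⁻¹ := by
    intro φ g3 g4 x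
    by_cases h : IsCoprime (sp x) q
    · have h6 := g4 x h
      rw [Complex.inv_def, Complex.normSq_eq_norm_sq, h6]
      simp
    · rw [(g3 x).2 h, map_zero, inv_zero]
  have hcc : ∀ b x, σ (cb θ b x) = cb θ' b x := by
    intro b x
    unfold cb
    split_ifs
    · rw [hconj θ f3 f4, hconj θ' f3' f4', map_inv₀, hfp]
    · exact map_zero σ
  -- `u` is a unit modulo `q`
  have hin : ∀ I : Ideal R, (n : R) ∈ I → u * v - 1 ∈ I := by
    intro I hI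
    obtain ⟨w, hw⟩ := Ideal.mem_span_singleton'.1 huv
    rw [← hw]
    push_cast
    rw [← mul_assoc]
    exact I.mul_mem_right _ (I.mul_mem_left _ hI)
  have hucop : IsCoprime (sp u) q := by
    rw [Ideal.isCoprime_iff_sup_eq, Ideal.eq_top_iff_one]
    have h6 : (1 : R) = u * v - (u * v - 1) := by ring
    rw [h6]
    refine Ideal.sub_mem _ ?_ (Ideal.mem_sup_right (hin q hnq))
    exact Ideal.mem_sup_left (Ideal.mul_mem_right _ _ (Ideal.mem_span_singleton_self u))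
  set e : ℂ := (starRingEnd ℂ) (fp 1 θ' u) with he
  have he0 : e ≠ 0 := by
    rw [he]
    refine (map_ne_zero _).2 ?_
    rw [Ne, f3', not_not]
    exact hucop
  have hmem : ∀ b ∈ s, ∀ x : R, u * x ∈ b ↔ x ∈ b := by
    intro b hb x
    constructor
    · intro h
      have h6 : x = v * (u * x) - (u * v - 1) * x := by ring
      rw [h6]
      exact b.sub_mem (b.mul_mem_left _ h) (b.mul_mem_right _ (hin b (hnb b hb)))
    · exact fun h => b.mul_mem_left _ h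
  have hcu : ∀ b ∈ s, ∀ x : R, cb θ' b (u * x) = e * cb θ' b x := by
    intro b hb x
    unfold cb
    by_cases hx : x ∈ b
    · rw [if_pos hx, if_pos ((hmem b hb x).2 hx), f2', map_mul]
    · rw [if_neg hx, if_neg (fun h => hx ((hmem b hb x).1 h)), mul_zero]
  have hmain : e * σ (∑ b ∈ s, θ b * AA L Ω n k (cb θ b)) =
      ∑ b ∈ s, θ' b * AA L Ω n k (cb θ' b) := by
    rw [map_sum, Finset.mul_sum]
    refine Finset.sum_congr rfl fun b hb => ?_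
    obtain ⟨g1, g2, -⟩ := cb_facts h2 hR hθ' hnq (hnb b hb)
    rw [map_mul, hσθ, mul_left_comm, AA_map hL hn hk huv hu (hcc b) g1 g2 (hcu b hb)]
  exact ⟨u, hucop, hmain⟩

/-- the sums are algebraic -/
lemma alg_pt (h2 : IsAlgebraic ℚ L.g₂) (h3 : IsAlgebraic ℚ L.g₃) {t : ℂ} {m : ℕ} (hm : 0 < m)
    (ht : (m : ℂ) * t ∈ L.lattice) : ℘[L] t ∈ QB ∧ ℘'[L] t ∈ QB := by
  by_cases h0 : t ∈ L.lattice
  · have e1 : ℘[L] t = 0 := L.weierstrassP_coe ⟨t, h0⟩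
    have e2 : ℘'[L] t = 0 := L.derivWeierstrassP_coe ⟨t, h0⟩
    rw [e1, e2]
    exact ⟨zero_mem _, zero_mem _⟩
  · have h4 := (torsion_EL h2 h3 hm ht).resolve_left h0
    exact ⟨mem_QB.2 h4, mem_QB.2 (wp'_alg h2 h3 h0 h4)⟩

lemma AA_alg (h2 : IsAlgebraic ℚ L.g₂) (h3 : IsAlgebraic ℚ L.g₃) (hL : IsLat L R Ω) {n k : ℕ}
    (hn : 0 < n) (hk : 0 < k) [Fintype (R ⧸ sp (n : R))] [Fintype (R ⧸ sp (k : R))] {c : R → ℂ}
    (hc : ∀ x, c x ∈ QB) : AA L Ω n k c ∈ QB := by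
  classical
  have hpt : ∀ m : ℕ, 0 < m → ∀ r : R, (m : ℂ) * (Ω * r / m) ∈ L.lattice := by
    intro m hm r
    have hm0 : (m : ℂ) ≠ 0 := by exact_mod_cast hm.ne'
    rw [mul_div_cancel₀ _ hm0]
    exact hL.mem_mul r
  unfold AA
  refine sum_mem fun q _ => mul_mem (hc _) (sum_mem fun p _ => ?_)
  split_ifs
  · exact zero_mem _
  · unfold Dd
    obtain ⟨a1, a2⟩ := alg_pt h2 h3 hn (hpt n hn q.out)
    obtain ⟨b1, -⟩ := alg_pt h2 h3 hk (hpt k hk p.out)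
    exact div_mem a2 (sub_mem a1 b1)

end

end Pool.Agent.L0h4.AP
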