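import Pool.Agent.TH936.CM.Eqv
import Pool.Agent.L0h4.TW.Ev

/-!
# The automorphisms of the complex numbers over `ℚ(√-7)` act linearly
-/

set_option autoImplicit false
set_option linter.unusedSectionVars false

open Filter
open scoped Topology PeriodPair

namespace Pool.Agent.L0h4.AP

open Pool.Agent.Y698 Pool.Agent.Y698.SG Pool.Agent.L0h4.TW
open H667R3 Pool.Agent.W192.HK Pool.Agent.TH936.CM Pool.Agent.TH936.PU

variable {L : PeriodPair} {Ω : ℂ}

lemma hd_al {z : ℂ} (hz : al * z ∉ L.lattice) :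
    HasDerivAt (fun z => Xx L (al * z)) (al * ℘'[L] (al * z)) z := by
  have h1 := hasDerivAt_weierstrassP L hz
  have h2 : HasDerivAt (fun z : ℂ => al * z) al z := by
    simpa using (hasDerivAt_id z).const_mul al
  have h3 := (h1.comp z h2).add_const (1 / 4 : ℂ)
  have h4 : HasDerivAt (fun z => Xx L (al * z)) (℘'[L] (al * z) * al) z := h3
  rwa [mul_comm] at h4

lemma hd_X {z : ℂ} (hz : z ∉ L.lattice) : HasDerivAt (Xx L) (℘'[L] z) z :=
  (hasDerivAt_weierstrassP L hz).add_const (1 / 4 : ℂ)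

/-- the derivative of the multiplication formula -/
lemma LD_wp' (h : LD L Ω) {z : ℂ} (hz : al * z ∉ L.lattice) :
    al * ℘'[L] (al * z) * (al ^ 2 * Xx L z - bl) =
      2 * Xx L z * ℘'[L] z - al ^ 2 * Xx L (al * z) * ℘'[L] z := by
  have hz0 : z ∉ L.lattice := fun h1 => hz (by
    have := h.lat.mul aR z h1
    rwa [aR_coe] at this)
  have hop : IsOpen {u : ℂ | al * u ∉ L.lattice} :=
    (L.isClosed_lattice.isOpen_compl).preimage (by fun_prop : Continuous fun u : ℂ => al * u)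
  have hev : (fun u : ℂ => Xx L (al * u) * (al ^ 2 * Xx L u - bl)) =ᶠ[𝓝 z]
      fun u : ℂ => Xx L u ^ 2 - al := by
    filter_upwards [hop.mem_nhds hz] with u hu
    exact (h.mul_al hu).1
  have d1 : HasDerivAt (fun u : ℂ => Xx L (al * u) * (al ^ 2 * Xx L u - bl))
      (al * ℘'[L] (al * z) * (al ^ 2 * Xx L z - bl) + Xx L (al * z) * (al ^ 2 * ℘'[L] z)) z :=
    (hd_al hz).mul (((hd_X hz0).const_mul (al ^ 2)).sub_const bl)
  have d2 : HasDerivAt (fun u : ℂ => Xx L u ^ 2 - al) (2 * Xx L z * ℘'[L] z) z := by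
    have := ((hd_X hz0).pow 2).sub_const al
    simpa using this
  have := (d1.congr_of_eventuallyEq hev.symm).unique d2
  linear_combination this

variable {σ : ℂ ≃+* ℂ}

lemma sig_bl (hσ : σ al = al) : σ bl = bl := by
  have h1 : bl = 1 - al := by
    unfold bl al
    ring
  rw [h1, map_sub, map_one, hσ]

lemma sig_X {z z' : ℂ} (h : Rl L σ z z') (hz : z ∉ L.lattice) : σ (Xx L z) = Xx L z' := by
  unfold Xx
  rw [map_add, (h.vals hz).1, map_div₀, map_one, map_ofNat]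

lemma sig_g2 (h : LD L Ω) (σ : ℂ ≃+* ℂ) : σ L.g₂ = L.g₂ := by
  rw [h.g2, map_div₀, map_ofNat, map_ofNat]

lemma sig_g3 (h : LD L Ω) (σ : ℂ ≃+* ℂ) : σ L.g₃ = L.g₃ := by
  rw [h.g3, map_div₀, map_ofNat, map_ofNat]

lemma rl_tA (h : LD L Ω) (hσ : σ al = al) : Rl L σ (tA Ω) (tA Ω) := by
  refine Or.inr ⟨tA_notMem h.lat, tA_notMem h.lat, ?_, ?_⟩
  · rw [h.ea, map_div₀, map_sub, hσ, map_ofNat]
  · have h1 : ℘'[L] (tA Ω) = 0 :=
      (Pool.Agent.TH936.CM.two_mem_iff (tA_notMem h.lat)).1 (two_tA h.lat)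
    rw [h1, map_zero]

/-- multiplication by `α` -/
theorem lin_al (h : LD L Ω) (hσ : σ al = al) {z z' : ℂ} (hr : Rl L σ z z') :
    Rl L σ (al * z) (al * z') := by
  have hmul : ∀ w ∈ L.lattice, al * w ∈ L.lattice := fun w hw => by
    have e1 := h.lat.mul aR w hw
    rwa [aR_coe] at e1
  by_cases hz : z ∈ L.lattice
  · exact Or.inl ⟨hmul z hz, hmul z' (hr.mem_iff.1 hz)⟩
  have hz' : z' ∉ L.lattice := fun h1 => hz (hr.mem_iff.2 h1)
  have hX := sig_X hr hz
  have hY := (hr.vals hz).2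
  have hA := rl_tA h hσ
  have htA := tA_mem h.lat
  by_cases hk : al * z ∈ L.lattice
  · refine Or.inl ⟨hk, ?_⟩
    have h1 := (ker_al h.lat hk).resolve_left hz
    have h2 := hA.add_left h1
    rw [show tA Ω + (z - tA Ω) = z by ring] at h2
    have h3 := hmul _ (hr.uniq h2)
    have h4 := add_mem h3 htA
    rwa [show al * (z' - tA Ω) + al * tA Ω = al * z' by ring] at h4
  by_cases hk' : al * z' ∈ L.lattice
  · exfalso
    apply hk
    have h1 := (ker_al h.lat hk').resolve_left hz'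
    have h2 := hA.add_right h1
    rw [show tA Ω + (z' - tA Ω) = z' by ring] at h2
    have h3 := hmul _ (hr.uniq' h2)
    have h4 := add_mem h3 htA
    rwa [show al * (z - tA Ω) + al * tA Ω = al * z by ring] at h4
  obtain ⟨m1, m2⟩ := h.mul_al hk
  obtain ⟨m1', m2'⟩ := h.mul_al hk'
  have d1 := LD_wp' h hk
  have d1' := LD_wp' h hk'
  have hden : σ (al ^ 2 * Xx L z - bl) = al ^ 2 * Xx L z' - bl := by
    rw [map_sub, map_mul, map_pow, hσ, hX, sig_bl hσ]
  have hXa : σ (Xx L (al * z)) = Xx L (al * z') := by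
    have e1 := congrArg σ m1
    rw [map_mul, hden, map_sub, map_pow, hX, hσ, ← m1'] at e1
    exact mul_right_cancel₀ m2' e1
  refine Or.inr ⟨hk, hk', ?_, ?_⟩
  · have e1 : ∀ w, ℘[L] w = Xx L w - 1 / 4 := fun w => by unfold Xx; ring
    rw [e1, e1, map_sub, hXa, map_div₀, map_one, map_ofNat]
  · have e1 := congrArg σ d1
    simp only [map_mul, map_sub, map_pow, map_ofNat, hσ, hX, hXa, hY, sig_bl hσ] at e1
    rw [← d1'] at e1
    exact mul_left_cancel₀ al_ne (mul_right_cancel₀ m2' e1)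

/-- all the multiplications -/
theorem lin_RR (h : LD L Ω) (hσ : σ al = al) (z z' : ℂ) (hr : Rl L σ z z') (r : RR) :
    Rl L σ (r * z) (r * z') := by
  obtain ⟨x, y, hr'⟩ := (qr.mem r).1 r.2
  have h4 := (hr.int_mul (sig_g2 h σ) (sig_g3 h σ) x).add (sig_g2 h σ) (sig_g3 h σ)
    ((lin_al h hσ hr).int_mul (sig_g2 h σ) (sig_g3 h σ) y)
  rw [hr']
  have e5 : ∀ w : ℂ, ((x : ℂ) + y * al) * w = x * w + y * (al * w) := fun w => by ring
  rw [e5, e5]
  exact h4

lemma sig_RR (hσ : σ al = al) (r : RR) : σ (r : ℂ) = r := by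
  obtain ⟨x, y, hr⟩ := (qr.mem r).1 r.2
  rw [hr, map_add, map_mul, map_intCast, map_intCast, hσ]

end Pool.Agent.L0h4.AP
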