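import Pool.Agent.L0h4.AP.Rat
import Pool.Agent.TH936.CM.Eqv
import Pool.Agent.TH936.CM.Fin
import Pool.Agent.L0h4.AP.Gal
import Pool.Agent.L0h86.F4.Per

/-!
# The automorphisms of the complex numbers over `ℚ(√-3)` and the curve `y² = x³ + 1`
-/

set_option autoImplicit false
set_option linter.unusedSectionVars false

open Filter MeasureTheory
open scoped Topology PeriodPair

namespace Pool.Agent.L0h4.AP.E

open H667R3 Pool.Agent.W192.HK Pool.Agent.TH936.CM Pool.Agent.TH936.PU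
open Pool.Agent.Y696 Pool.Agent.Y715.T.Lat Pool.Agent.Y715.T.Three
open Pool.Agent.L0h86.F3 (c4 c4_pos c4_cube period_one psR exists_CR)
open Pool.Agent.L0h86.F4 (PA PA_scale PA_neg)

variable {L : PeriodPair} {Ω : ℂ} {σ : ℂ ≃+* ℂ}

/-- the lattice of `y² = x³ + 1` -/
structure C4 (L : PeriodPair) (Ω : ℂ) : Prop where
  lat : IsLat L eis Ω
  g2 : L.g₂ = 0
  g3 : L.g₃ = -4

lemma sig_g2 (h : C4 L Ω) (σ : ℂ ≃+* ℂ) : σ L.g₂ = L.g₂ := by rw [h.g2, map_zero]

lemma sig_g3 (h : C4 L Ω) (σ : ℂ ≃+* ℂ) : σ L.g₃ = L.g₃ := by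
  rw [h.g3, map_neg, map_ofNat]

lemma sig_eis (hσ : σ om = om) (r : eis) : σ (r : ℂ) = r := by
  obtain ⟨x, y, hr⟩ := (qr.mem r).1 r.2
  rw [hr, map_add, map_mul, map_intCast, map_intCast, hσ]

theorem lin_om (h : C4 L Ω) (hσ : σ om = om) {z z' : ℂ} (hr : Rl L σ z z') :
    Rl L σ (om * z) (om * z') := by
  have hu : IsUnit omr := omr_unit
  have ho : ((omr : eis) : ℂ) = om := rfl
  have hl : ∀ w, om * w ∈ L.lattice ↔ w ∈ L.lattice := fun w => by
    have := lat_unit h.lat hu w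
    rwa [ho] at this
  have hp : ∀ w, ℘[L] (om * w) = (om ^ 2)⁻¹ * ℘[L] w := fun w => by
    have := wp_unit h.lat hu w
    rwa [ho] at this
  have hd : ∀ w, ℘'[L] (om * w) = (om ^ 3)⁻¹ * ℘'[L] w := fun w => by
    have := dwp_unit h.lat hu w
    rwa [ho] at this
  rcases hr with ⟨h1, h2⟩ | ⟨h1, h2, h3, h4⟩
  · exact Or.inl ⟨(hl _).2 h1, (hl _).2 h2⟩
  · refine Or.inr ⟨fun h5 => h1 ((hl _).1 h5), fun h5 => h2 ((hl _).1 h5), ?_, ?_⟩
    · rw [hp, hp, map_mul, map_inv₀, map_pow, hσ, h3]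
    · rw [hd, hd, map_mul, map_inv₀, map_pow, hσ, h4]

theorem lin_eis (h : C4 L Ω) (hσ : σ om = om) (z z' : ℂ) (hr : Rl L σ z z') (r : eis) :
    Rl L σ (r * z) (r * z') := by
  obtain ⟨x, y, hr'⟩ := (qr.mem r).1 r.2
  have h4 := (hr.int_mul (sig_g2 h σ) (sig_g3 h σ) x).add (sig_g2 h σ) (sig_g3 h σ)
    ((lin_om h hσ hr).int_mul (sig_g2 h σ) (sig_g3 h σ) y)
  rw [hr']
  have e5 : ∀ w : ℂ, ((x : ℂ) + y * om) * w = x * w + y * (om * w) := fun w => by ring
  rw [e5, e5]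
  exact h4

lemma ode4 (h : C4 L Ω) {z : ℂ} (hz : z ∉ L.lattice) : ℘'[L] z ^ 2 = 4 * ℘[L] z ^ 3 + 4 := by
  rw [L.derivWeierstrassP_sq z hz, h.g2, h.g3]
  ring

lemma coe_int_ne {z : eis} (h : z ≠ 0) : (z : ℂ) ≠ 0 := fun h1 => h (Subtype.ext h1)

/-- `Ω r / a` is in the lattice -/
lemma div_iff4 (h : C4 L Ω) {a : eis} (ha : a ≠ 0) (r : eis) :
    Ω * r / a ∈ L.lattice ↔ a ∣ r := by
  have hΩ := h.lat.ne
  have ha0 := coe_int_ne ha
  rw [h.lat.mem]
  constructor
  · rintro ⟨s, hs⟩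
    refine ⟨s, Subtype.ext ?_⟩
    push_cast
    field_simp at hs
    linear_combination hs
  · rintro ⟨s, rfl⟩
    refine ⟨s, ?_⟩
    push_cast
    field_simp

lemma two_nd : ¬ (2 : eis) ∣ 1 := by
  rintro ⟨⟨c, x, y, hc⟩, h⟩
  have h1 : (1 : ℂ) = 2 * (x + y * om) := by
    have := congrArg (fun t : eis => (t : ℂ)) h
    rw [← hc]
    exact this
  have h6 : (1 : ℂ) = ((2 * x : ℤ) : ℂ) + ((2 * y : ℤ) : ℂ) * om := by
    push_cast
    linear_combination h1
  have h2 := congrArg Complex.im h6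
  have h3 := congrArg Complex.re h6
  simp only [Complex.one_im, Complex.one_re, Complex.add_im, Complex.add_re, Complex.mul_im,
    Complex.mul_re, Complex.intCast_im, Complex.intCast_re, zero_mul, zero_add, add_zero,
    sub_zero] at h2 h3
  have h4 : ((2 * y : ℤ) : ℝ) = 0 := (mul_eq_zero.1 h2.symm).resolve_right om_im.ne'
  rw [h4, zero_mul, add_zero] at h3
  have h7 : (1 : ℤ) = 2 * x := by exact_mod_cast h3
  omega

lemma rl_half (h : C4 L Ω) (hσ : σ om = om) : Rl L σ (Ω / 2) (Ω / 2) := by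
  have h2 : (2 : eis) ≠ 0 := by
    intro h
    exact two_nd ⟨0, by
      exfalso
      have := congrArg (fun t : eis => (t : ℂ)) h
      have h2 : ((2 : eis) : ℂ) = 2 := rfl
      simp only [h2] at this
      exact two_ne_zero this⟩
  have hn : Ω / 2 ∉ L.lattice := by
    have := (div_iff4 h h2 1).not.2 two_nd
    have e : Ω * ((1 : eis) : ℂ) / ((2 : eis) : ℂ) = Ω / 2 := by
      have h2 : ((2 : eis) : ℂ) = 2 := rfl
      rw [h2]
      push_cast
      ring
    rwa [e] at this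
  have hm : 2 * (Ω / 2) ∈ L.lattice := by
    have e : 2 * (Ω / 2) = Ω * ((1 : eis) : ℂ) := by push_cast; ring
    rw [e]
    exact h.lat.mem_mul 1
  have hd : ℘'[L] (Ω / 2) = 0 := (Pool.Agent.TH936.CM.two_mem_iff hn).1 hm
  have ho := ode4 h hn
  rw [hd] at ho
  have hp : (℘[L] (Ω / 2) + 1) * ((℘[L] (Ω / 2) + om) * (℘[L] (Ω / 2) + om ^ 2)) = 0 := by
    linear_combination (-1 / 4 : ℂ) * ho + (℘[L] (Ω / 2) ^ 2 + ℘[L] (Ω / 2)) * om_sq +
      (om - 1) * (℘[L] (Ω / 2) + 1) * om_sq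
  refine Or.inr ⟨hn, hn, ?_, by rw [hd, map_zero]⟩
  rcases mul_eq_zero.1 hp with h1 | h1
  · have e : ℘[L] (Ω / 2) = -1 := by linear_combination h1
    rw [e, map_neg, map_one]
  · rcases mul_eq_zero.1 h1 with h1 | h1
    · have e : ℘[L] (Ω / 2) = -om := by linear_combination h1
      rw [e, map_neg, hσ]
    · have e : ℘[L] (Ω / 2) = -om ^ 2 := by linear_combination h1
      rw [e, map_neg, map_pow, hσ]

lemma lam_om : lam = 1 + 2 * om := by
  rw [← la_coe]
  unfold la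
  rw [ez_coe]
  push_cast
  ring

lemma la_nd : ¬ (la : eis) ∣ 1 := by
  rintro ⟨⟨c, x, y, hc⟩, h⟩
  have h1 : (1 : ℂ) = (1 + 2 * om) * (x + y * om) := by
    have := congrArg (fun t : eis => (t : ℂ)) h
    rw [← hc, ← lam_om, ← la_coe]
    exact this
  have h6 : (1 : ℂ) = ((x - 2 * y : ℤ) : ℂ) + ((2 * x - y : ℤ) : ℂ) * om := by
    push_cast
    linear_combination h1 + 2 * (y : ℂ) * om_sq
  have h2 := congrArg Complex.im h6
  have h3 := congrArg Complex.re h6
  simp only [Complex.one_im, Complex.one_re, Complex.add_im, Complex.add_re, Complex.mul_im,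
    Complex.mul_re, Complex.intCast_im, Complex.intCast_re, zero_mul, zero_add, add_zero,
    sub_zero] at h2 h3
  have h4 : ((2 * x - y : ℤ) : ℝ) = 0 := (mul_eq_zero.1 h2.symm).resolve_right om_im.ne'
  have h5 : (2 * x - y : ℤ) = 0 := by exact_mod_cast h4
  rw [h4, zero_mul, add_zero] at h3
  have h7 : (1 : ℤ) = x - 2 * y := by exact_mod_cast h3
  omega

lemma rl_third (h : C4 L Ω) (hσ : σ om = om) : Rl L σ (Ω / lam) (Ω / lam) := by
  have hla : (la : eis) ≠ 0 := by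
    intro h0
    have := congrArg (fun t : eis => (t : ℂ)) h0
    have h2 : ((la : eis) : ℂ) = lam := la_coe
    simp only [h2] at this
    exact lam_ne' this
  have hlam : lam ≠ 0 := lam_ne'
  have hn : Ω / lam ∉ L.lattice := by
    have := (div_iff4 h hla 1).not.2 la_nd
    rw [la_coe] at this
    have e : Ω * ((1 : eis) : ℂ) / lam = Ω / lam := by push_cast; ring
    rwa [e] at this
  have hm : om * (Ω / lam) - Ω / lam ∈ L.lattice := by
    have e2 : om - 1 = -om ^ 2 * lam := by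
      rw [lam_om]
      linear_combination (2 * om - 1) * om_sq
    have e : om * (Ω / lam) - Ω / lam = Ω * ((-omr ^ 2 : eis) : ℂ) := by
      push_cast
      rw [omr_coe]
      have e3 : om * (Ω / lam) - Ω / lam = (om - 1) * (Ω / lam) := by ring
      rw [e3, e2]
      field_simp
    rw [e]
    exact h.lat.mem_mul _
  have ho : ((omr : eis) : ℂ) = om := rfl
  have hp : ℘[L] (om * (Ω / lam)) = (om ^ 2)⁻¹ * ℘[L] (Ω / lam) := by
    have := wp_unit h.lat omr_unit (Ω / lam)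
    rwa [ho] at this
  have hp2 : ℘[L] (om * (Ω / lam)) = ℘[L] (Ω / lam) := wp_per hm
  have h0 : ℘[L] (Ω / lam) = 0 := by
    rw [hp2] at hp
    have h3 : om ^ 2 * ℘[L] (Ω / lam) = ℘[L] (Ω / lam) := by
      have ho2 : om ^ 2 ≠ 0 := pow_ne_zero 2 om_ne
      conv_lhs => rw [hp]
      rw [mul_inv_cancel_left₀ ho2]
    have h4 : (om ^ 2 - 1) * ℘[L] (Ω / lam) = 0 := by linear_combination h3
    refine (mul_eq_zero.1 h4).resolve_left fun h5 => ?_
    have h6 : om = -2 := by linear_combination om_sq - h5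
    have h7 := om_im
    rw [h6] at h7
    simp at h7
  have ho := ode4 h hn
  rw [h0] at ho
  have h8 : (℘'[L] (Ω / lam) - 2) * (℘'[L] (Ω / lam) + 2) = 0 := by linear_combination ho
  refine Or.inr ⟨hn, hn, by rw [h0, map_zero], ?_⟩
  rcases mul_eq_zero.1 h8 with h1 | h1
  · have e : ℘'[L] (Ω / lam) = 2 := by linear_combination h1
    rw [e, map_ofNat]
  · have e : ℘'[L] (Ω / lam) = -2 := by linear_combination h1
    rw [e, map_neg, map_ofNat]

/-- the points of the group `E[2 √-3]` are fixed -/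
lemma rl_six (h : C4 L Ω) (hσ : σ om = om) : Rl L σ (Ω / (2 * lam)) (Ω / (2 * lam)) := by
  have h1 := (rl_half h hσ).add (sig_g2 h σ) (sig_g3 h σ)
    (lin_om h hσ (rl_third h hσ)).neg
  have hlam : lam ≠ 0 := lam_ne'
  have e : Ω / 2 + -(om * (Ω / lam)) = Ω / (2 * lam) := by
    field_simp
    rw [lam_om]
    ring
  rwa [e] at h1

end Pool.Agent.L0h4.AP.E
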