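import Pool.Agent.L0h4.AP.Per

/-!
# The leading terms for the twists by `n` and `-7 n` together
-/

set_option autoImplicit false
set_option maxHeartbeats 4000000
set_option linter.unusedVariables false
set_option linter.unusedSectionVars false

open Filter MeasureTheory
open scoped Topology PeriodPair

namespace Pool.Agent.L0h4.AP

open Pool.Agent.TH936.CM (entire_eq)
open Pool.Agent.L0h98.T7 (tg_seven)
open Pool.Agent.L0h4.T7
open Pool.Agent.L0h75.IS (tgi)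

/-- `n = D t²` or `n = -7 D t²`, `D` positive, squarefree, prime to `7` -/
def ClA (n : ℤ) : Prop := ∃ D t : ℤ, 0 < D ∧ Squarefree D ∧ ¬ 7 ∣ D ∧ t ≠ 0 ∧
  (n = D * t ^ 2 ∨ n = -7 * D * t ^ 2)

lemma ClA.ne {n : ℤ} (h : ClA n) : n ≠ 0 := by
  obtain ⟨D, t, h0, h1, h2, h3, h4⟩ := h
  have ht : 0 < t ^ 2 := by positivity
  rcases h4 with rfl | rfl
  · exact (mul_pos h0 ht).ne'
  · exact mul_ne_zero (mul_ne_zero (by norm_num) h0.ne') ht.ne'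

lemma ClA.neg {n : ℤ} (h : ClA n) : ClA (-7 * n) := by
  obtain ⟨D, t, h0, h1, h2, h3, h4⟩ := h
  rcases h4 with rfl | rfl
  · exact ⟨D, t, h0, h1, h2, h3, Or.inr (by ring)⟩
  · exact ⟨D, 7 * t, h0, h1, h2, mul_ne_zero (by norm_num) h3, Or.inl (by ring)⟩

/-- `f` is the incomplete `L`-function of `y² = x³ + a x + b` -/
def Lf (a b : ℤ) (f : ℂ → ℂ) : Prop := Differentiable ℂ f ∧
  ∀ s : ℂ, (3 : ℝ) / 2 < s.re → HasProd (tgi a b s) (f s)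

lemma Lf.eq {a b : ℤ} {f g : ℂ → ℂ} (hf : Lf a b f) (hg : Lf a b g) : f = g :=
  entire_eq hf.1 hg.1 (3 / 2) fun z hz => (hf.2 z hz).unique (hg.2 z hz)

/-- the square -/
theorem leadA_sq {n : ℤ} (h : ClA n) {f : ℂ → ℂ} (hf : Lf (-35 * n ^ 2) (-98 * n ^ 3) f)
    (h0 : f 1 ≠ 0) : 0 < Om (-35 * n ^ 2) (-98 * n ^ 3) ∧
      ∃ r : ℚ, r ≠ 0 ∧ f 1 ^ 2 = r * ((Om (-35 * n ^ 2) (-98 * n ^ 3) : ℝ) : ℂ) ^ 2 := by
  obtain ⟨D, t, k0, k1, k2, k3, k4⟩ := h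
  obtain ⟨p0, r, hr⟩ := lead k0 k1 k2 k3 k4 hf.1 hf.2
  refine ⟨p0, r, ?_, hr⟩
  rintro rfl
  rw [Rat.cast_zero, zero_mul] at hr
  exact h0 (pow_eq_zero_iff two_ne_zero |>.1 hr)

/-- the periods are commensurable -/
lemma Om_seven {n : ℤ} (hn : n ≠ 0) : ∃ c : ℚ, c ≠ 0 ∧
    Om (-35 * (-7 * n) ^ 2) (-98 * (-7 * n) ^ 3) = c * Om (-35 * n ^ 2) (-98 * n ^ 3) := by
  rw [Om_PS, Om_PS]
  rcases lt_or_gt_of_ne hn with h | h
  · have h1 : (0 : ℝ) < -7 * (n : ℝ) := by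
      have : (n : ℝ) < 0 := by exact_mod_cast h
      linarith
    have h2 := PS_neg h1
    have h3 := PS_scale (c := 49) (by norm_num) (n : ℝ)
    have e : -7 * (-7 * (n : ℝ)) = 49 * (n : ℝ) := by ring
    have hs : √(49 : ℝ) = 7 := by
      rw [show (49 : ℝ) = 7 ^ 2 by norm_num, Real.sqrt_sq (by norm_num)]
    rw [e, h3, hs] at h2
    refine ⟨1 / 7, by norm_num, ?_⟩
    push_cast
    rw [← h2]
    ring
  · have h1 : (0 : ℝ) < (n : ℝ) := by exact_mod_cast h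
    refine ⟨1, one_ne_zero, ?_⟩
    push_cast
    rw [one_mul]
    exact PS_neg h1

/-- the two twists together -/
theorem leadA_pair {n : ℤ} (h : ClA n) {f g : ℂ → ℂ} (hf : Lf (-35 * n ^ 2) (-98 * n ^ 3) f)
    (hg : Lf (-35 * (-7 * n) ^ 2) (-98 * (-7 * n) ^ 3) g) (h0 : f 1 ≠ 0) :
    ∃ r : ℚ, r ≠ 0 ∧ f 1 * g 1 = r * (((Om (-35 * n ^ 2) (-98 * n ^ 3) : ℝ) : ℂ) *
      ((Om (-35 * (-7 * n) ^ 2) (-98 * (-7 * n) ^ 3) : ℝ) : ℂ)) := by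
  obtain ⟨p0, r, hr0, hr⟩ := leadA_sq h hf h0
  obtain ⟨c, hc0, hc⟩ := Om_seven h.ne
  have hg' : Lf (-35 * n ^ 2) (-98 * n ^ 3) g := by
    refine ⟨hg.1, fun s hs => ?_⟩
    refine (congrArg (fun k => HasProd k (g s)) (funext fun p => ?_)).mp (hg.2 s hs)
    exact tg_seven n s p
  rw [← hf.eq hg', hc]
  refine ⟨r / c, div_ne_zero hr0 hc0, ?_⟩
  have : (c : ℂ) ≠ 0 := by exact_mod_cast hc0
  rw [← pow_two, hr]
  push_cast
  field_simp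

end Pool.Agent.L0h4.AP
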