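import Pool.Agent.L0h4.AP.Tw
import Pool.Agent.L0h4.T7.Per7
import Pool.Agent.L0h75.IS.Tr

/-!
# The leading terms up to rational numbers
-/

set_option autoImplicit false
set_option maxHeartbeats 4000000
set_option linter.unusedVariables false
set_option linter.unusedSectionVars false

open Filter MeasureTheory
open scoped Topology PeriodPair

namespace Pool.Agent.L0h4.AP

open Pool.Agent.Y698 Pool.Agent.Y698.SG Pool.Agent.L0h4.TW
open H667R3 Pool.Agent.W192.HK Pool.Agent.TH936.CM Pool.Agent.TH936.PU Pool.Agent.W245.EB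
open Pool.Agent.L0h1.KD (tg)
open Pool.Agent.L0h98.T7 (tg_seven)
open Pool.Agent.L0h4.T7
open Pool.Agent.L0h75.IS (tgi ef ef_diff ef_ne Np Np_scale tgi_eq not_two disc_scale)

/-- the real period `∫ dx / √(x³ + a x + b)` -/
noncomputable def Om (a b : ℤ) : ℝ :=
  ∫ x in {x : ℝ | 0 < x ^ 3 + (a : ℝ) * x + (b : ℝ)}, 1 / √(x ^ 3 + (a : ℝ) * x + (b : ℝ))

lemma Om_all (a b : ℤ) : Om a b = ∫ x : ℝ, 1 / √(x ^ 3 + (a : ℝ) * x + (b : ℝ)) := by
  unfold Om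
  refine setIntegral_eq_integral_of_forall_compl_eq_zero fun x hx => ?_
  have h : x ^ 3 + (a : ℝ) * x + (b : ℝ) ≤ 0 := not_lt.1 hx
  rw [Real.sqrt_eq_zero_of_nonpos h, div_zero]

lemma Om_PS (n : ℤ) : Om (-35 * n ^ 2) (-98 * n ^ 3) = PS (n : ℝ) := by
  rw [Om_all]
  unfold PS
  congr 1
  funext x
  have e : 4 * x ^ 3 - 140 * (n : ℝ) ^ 2 * x - 392 * (n : ℝ) ^ 3 =
      2 ^ 2 * (x ^ 3 + ((-35 * n ^ 2 : ℤ) : ℝ) * x + ((-98 * n ^ 3 : ℤ) : ℝ)) := by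
    push_cast
    ring
  rw [e, Real.sqrt_mul (by norm_num), Real.sqrt_sq (by norm_num)]
  by_cases h5 : √(x ^ 3 + ((-35 * n ^ 2 : ℤ) : ℝ) * x + ((-98 * n ^ 3 : ℤ) : ℝ)) = 0
  · rw [h5]
    simp
  · field_simp

lemma PT_one_pos {L : PeriodPair} {Ω : ℂ} (h : LD L Ω) : 0 < PS 1 ∧
    ∃ r : ℚ, r ≠ 0 ∧ ((PS 1 : ℝ) : ℂ) ^ 2 = r * Ω ^ 2 := by
  obtain ⟨ω, hω, h1⟩ := h.exists_RP
  have h2 := h.real_period hω
  have h3 : PT 1 = ω := by
    rw [← h2]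
    unfold PT
    have h4 : ∀ x : ℝ, 4 * x ^ 3 - 3 * 1 * x ^ 2 - 8 * 1 ^ 2 * x - 4 * 1 ^ 3 = psiR x := by
      intro x
      unfold psiR
      ring
    simp only [h4]
    refine (setIntegral_eq_integral_of_forall_compl_eq_zero fun x hx => ?_).symm
    have h : psiR x ≤ 0 := not_lt.1 hx
    rw [Real.sqrt_eq_zero_of_nonpos h, div_zero]
  rw [PT_eq] at h3
  have h5 := hω.pos
  have h6 : PS 1 = ω / 2 := by linarith
  refine ⟨by rw [h6]; positivity, ?_⟩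
  rcases h1 with h1 | h1
  · refine ⟨1 / 4, by norm_num, ?_⟩
    rw [h6]
    push_cast
    linear_combination (1 / 4 : ℂ) * h1
  · refine ⟨-7 / 4, by norm_num, ?_⟩
    rw [h6]
    push_cast
    linear_combination (1 / 4 : ℂ) * h1

/-- the squares of the periods -/
lemma PS_sq {L : PeriodPair} {Ω : ℂ} (h : LD L Ω) {n : ℤ} (hn : 0 < n) : 0 < PS (n : ℝ) ∧
    ∃ r : ℚ, r ≠ 0 ∧ ((PS (n : ℝ) : ℝ) : ℂ) ^ 2 = r * Ω ^ 2 := by
  obtain ⟨h0, r, hr0, hr⟩ := PT_one_pos h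
  have hn' : (0 : ℝ) < n := by exact_mod_cast hn
  have h1 := PS_scale hn' 1
  rw [mul_one] at h1
  have hs : 0 < √(n : ℝ) := Real.sqrt_pos.2 hn'
  refine ⟨by rw [h1]; positivity, r / n, ?_, ?_⟩
  · have : (n : ℚ) ≠ 0 := by exact_mod_cast hn.ne'
    exact div_ne_zero hr0 this
  · have e : ((√(n : ℝ) : ℝ) : ℂ) ^ 2 = (n : ℂ) := by
      rw [← Complex.ofReal_pow, Real.sq_sqrt hn'.le]
      push_cast
      rfl
    rw [h1]
    push_cast
    rw [div_pow, hr, e]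
    ring

/-- the property of the value and the period -/
def Lead (a b : ℤ) (F : ℂ → ℂ) : Prop := 0 < Om a b ∧ ∃ r : ℚ, F 1 ^ 2 = r * ((Om a b : ℝ) : ℂ) ^ 2

lemma ef_rat (a b : ℤ) {p : ℕ} (hp : p.Prime) : ∃ c : ℚ, ef a b p 1 = c := by
  have hp0 : (p : ℂ) ≠ 0 := by exact_mod_cast hp.ne_zero
  refine ⟨1 - ((p : ℚ) - (Np a b p : ℚ)) * (p : ℚ)⁻¹ + (p : ℚ)⁻¹, ?_⟩
  unfold ef
  have e : (1 : ℂ) - 2 * 1 = -1 := by ring
  rw [e, Complex.cpow_neg, Complex.cpow_one]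
  push_cast
  rfl

/-- change of the equation -/
theorem fn_scale {a b e : ℤ} (he : e ≠ 0) {F : ℂ → ℂ} (k1 : Differentiable ℂ F)
    (k2 : ∀ s : ℂ, (3 : ℝ) / 2 < s.re → HasProd (tgi a b s) (F s)) :
    ∃ G : ℂ → ℂ, Differentiable ℂ G ∧
      (∀ s : ℂ, (3 : ℝ) / 2 < s.re → HasProd (tgi (a * e ^ 4) (b * e ^ 6) s) (G s)) ∧
      ∃ c : ℚ, G 1 = c * F 1 := by
  classical
  set S : Finset ℕ := e.natAbs.primeFactors.filter
    fun p => ¬ ((p : ℤ) ∣ 2 * (-4 * a ^ 3 - 27 * b ^ 2)) with hS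
  have hSp : ∀ p ∈ S, p.Prime := fun p hp => Nat.prime_of_mem_primeFactors (Finset.mem_filter.1 hp).1
  have hSm : ∀ p : ℕ, p ∈ S ↔ p.Prime ∧ (p : ℤ) ∣ e ∧
      ¬ ((p : ℤ) ∣ 2 * (-4 * a ^ 3 - 27 * b ^ 2)) := by
    intro p
    rw [hS, Finset.mem_filter, Nat.mem_primeFactors]
    constructor
    · rintro ⟨⟨h1, h2, -⟩, h3⟩
      exact ⟨h1, Int.natCast_dvd.2 h2, h3⟩
    · rintro ⟨h1, h2, h3⟩
      exact ⟨⟨h1, Int.natCast_dvd.1 h2, Int.natAbs_ne_zero.2 he⟩, h3⟩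
  refine ⟨fun s => F s * ∏ p ∈ S, ef a b p s, ?_, ?_, ?_⟩
  · refine k1.mul ?_
    exact Differentiable.fun_finsetProd fun p hp => ef_diff a b (hSp p hp)
  · intro s hs
    have h1 := k2 s hs
    have h2 : HasProd (fun p : ℕ => if p ∈ S then ef a b p s else 1) (∏ p ∈ S, ef a b p s) := by
      have h3 : HasProd (fun p : ℕ => if p ∈ S then ef a b p s else 1)
        (∏ p ∈ S, if p ∈ S then ef a b p s else 1) :=
        hasProd_prod_of_ne_finset_one (fun p hp => if_neg hp)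
      rwa [Finset.prod_congr rfl fun p hp => if_pos hp] at h3
    refine (congrArg (fun g => HasProd g (F s * ∏ p ∈ S, ef a b p s)) (funext fun p => ?_)).mp
      (h1.mul h2)
    rw [tgi_eq, tgi_eq, disc_scale]
    by_cases hp : p.Prime
    · have hpi : Prime (p : ℤ) := Nat.prime_iff_prime_int.1 hp
      by_cases hd : ((p : ℤ) ∣ 2 * (-4 * a ^ 3 - 27 * b ^ 2))
      · rw [if_neg (fun h => h.2 hd), if_neg (fun h => ((hSm p).1 h).2.2 hd),
          if_neg (fun h => h.2 (Dvd.dvd.mul_right hd _)), one_mul]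
      · by_cases hpe : (p : ℤ) ∣ e
        · rw [if_pos ⟨hp, hd⟩, if_pos ((hSm p).2 ⟨hp, hpe, hd⟩),
            if_neg (fun h => h.2 (Dvd.dvd.mul_left (dvd_pow hpe (by norm_num)) _))]
          exact inv_mul_cancel₀ (ef_ne a b hp (not_two hd) hs)
        · have hd2 : ¬ ((p : ℤ) ∣ 2 * (-4 * a ^ 3 - 27 * b ^ 2) * e ^ 12) := by
            intro h
            rcases hpi.dvd_or_dvd h with h3 | h3
            · exact hd h3
            · exact hpe (hpi.dvd_of_dvd_pow h3)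
          rw [if_pos ⟨hp, hd⟩, if_neg (fun h => hpe ((hSm p).1 h).2.1), mul_one, if_pos ⟨hp, hd2⟩]
          unfold ef
          rw [Np_scale hp hpe]
    · rw [if_neg (fun h => hp h.1), if_neg (fun h => hp (hSp p h)), if_neg (fun h => hp h.1), one_mul]
  · have h1 : ∀ T : Finset ℕ, (∀ p ∈ T, p.Prime) → ∃ c : ℚ, ∏ p ∈ T, ef a b p 1 = c := by
      intro T
      induction T using Finset.induction_on with
      | empty => exact fun _ => ⟨1, by simp⟩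
      | insert p T hp ih =>
        intro hT
        obtain ⟨c, hc⟩ := ih fun q hq => hT q (Finset.mem_insert_of_mem hq)
        obtain ⟨d, hd⟩ := ef_rat a b (hT p (Finset.mem_insert_self _ _))
        exact ⟨d * c, by rw [Finset.prod_insert hp, hc, hd]; push_cast; ring⟩
    obtain ⟨c, hc⟩ := h1 S hSp
    refine ⟨c, ?_⟩
    show F 1 * ∏ p ∈ S, ef a b p 1 = c * F 1
    rw [hc]
    ring

/-- the statement for a twist -/
def LL (n : ℤ) : Prop := ∃ f : ℂ → ℂ, Differentiable ℂ f ∧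
  (∀ s : ℂ, (3 : ℝ) / 2 < s.re → HasProd (tgi (-35 * n ^ 2) (-98 * n ^ 3) s) (f s)) ∧
  Lead (-35 * n ^ 2) (-98 * n ^ 3) f

theorem ll_base {D : ℕ} (hsf : Squarefree D) (h7 : ¬ 7 ∣ D) : LL (D : ℤ) := by
  obtain ⟨f, h1, h2, h3⟩ := sqD hsf h7
  obtain ⟨L, Ω, hL⟩ := exists_LD
  obtain ⟨r, hr⟩ := h3 L Ω hL
  have hD : (0 : ℤ) < (D : ℤ) := by exact_mod_cast Nat.pos_of_ne_zero hsf.ne_zero
  obtain ⟨p0, r', hr0, hr'⟩ := PS_sq hL hD
  refine ⟨f, h1, h2, ?_, r / r', ?_⟩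
  · rw [Om_PS]
    exact p0
  · rw [Om_PS, hr, hr']
    have : (r' : ℂ) ≠ 0 := by exact_mod_cast hr0
    push_cast
    field_simp

theorem ll_seven {n : ℤ} (hn : 0 < n) (h : LL n) : LL (-7 * n) := by
  obtain ⟨f, h1, h2, h3, r, hr⟩ := h
  have hn' : (0 : ℝ) < n := by exact_mod_cast hn
  have e : Om (-35 * (-7 * n) ^ 2) (-98 * (-7 * n) ^ 3) = Om (-35 * n ^ 2) (-98 * n ^ 3) := by
    rw [Om_PS, Om_PS, ← PS_neg hn']
    push_cast
    rfl
  refine ⟨f, h1, fun s hs => ?_, ?_, r, ?_⟩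
  · refine (congrArg (fun g => HasProd g (f s)) (funext fun p => ?_)).mp (h2 s hs)
    exact (tg_seven n s p).symm
  · rw [e]
    exact h3
  · rw [e]
    exact hr

theorem ll_scale {n t : ℤ} (ht : t ≠ 0) (h : LL n) : LL (n * t ^ 2) := by
  obtain ⟨f, h1, h2, h3, r, hr⟩ := h
  obtain ⟨G, k1, k2, c, k3⟩ := fn_scale ht h1 h2
  have e1 : -35 * n ^ 2 * t ^ 4 = -35 * (n * t ^ 2) ^ 2 := by ring
  have e2 : -98 * n ^ 3 * t ^ 6 = -98 * (n * t ^ 2) ^ 3 := by ring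
  rw [e1, e2] at k2
  have ht' : (0 : ℝ) < (t : ℝ) ^ 2 := by
    have : (t : ℝ) ≠ 0 := by exact_mod_cast ht
    positivity
  have e3 : Om (-35 * (n * t ^ 2) ^ 2) (-98 * (n * t ^ 2) ^ 3) =
      Om (-35 * n ^ 2) (-98 * n ^ 3) / |(t : ℝ)| := by
    rw [Om_PS, Om_PS]
    have := PS_scale ht' (n : ℝ)
    rw [Real.sqrt_sq_eq_abs] at this
    rw [← this]
    push_cast
    rw [mul_comm]
  have ht0 : (t : ℝ) ≠ 0 := by exact_mod_cast ht
  refine ⟨G, k1, k2, ?_, r * c ^ 2 * t ^ 2, ?_⟩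
  · rw [e3]
    exact div_pos h3 (abs_pos.2 ht0)
  · rw [e3, k3, mul_pow, hr]
    have e4 : ((|(t : ℝ)| : ℝ) : ℂ) ^ 2 = (t : ℂ) ^ 2 := by
      rw [← Complex.ofReal_pow, sq_abs]
      push_cast
      rfl
    have ht1 : (t : ℂ) ≠ 0 := by exact_mod_cast ht
    push_cast
    rw [div_pow, e4]
    field_simp

/-- **the leading terms**: the square of the central value is a rational multiple of the square of the
real period -/
theorem lead {n D t : ℤ} (h0 : 0 < D) (hD : Squarefree D) (h7 : ¬ 7 ∣ D) (ht : t ≠ 0)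
    (hn : n = D * t ^ 2 ∨ n = -7 * D * t ^ 2) {f : ℂ → ℂ} (hf : Differentiable ℂ f)
    (hp : ∀ s : ℂ, (3 : ℝ) / 2 < s.re →
      HasProd (tgi (-35 * n ^ 2) (-98 * n ^ 3) s) (f s)) :
    Lead (-35 * n ^ 2) (-98 * n ^ 3) f := by
  obtain ⟨d, rfl⟩ := Int.eq_ofNat_of_zero_le h0.le
  have hd : Squarefree d := Int.squarefree_natCast.1 hD
  have hd7 : ¬ 7 ∣ d := fun h => h7 (by exact_mod_cast h)
  have hb := ll_base hd hd7
  have hl : LL n := by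
    rcases hn with rfl | rfl
    · exact ll_scale ht hb
    · exact ll_scale ht (ll_seven h0 hb)
  obtain ⟨g, g1, g2, g3⟩ := hl
  have e : f = g := entire_eq hf g1 (3 / 2) fun z hz => (hp z hz).unique (g2 z hz)
  rw [e]
  exact g3

end Pool.Agent.L0h4.AP
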