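import Pool.Agent.L0h4.AP.ValE
import Pool.Agent.L0h4.AP.Pair
import Pool.Agent.L0h86.F5.Cor

/-!
# The leading terms for the twists of `X_0(36)`
-/

set_option autoImplicit false
set_option maxHeartbeats 400000
set_option linter.unusedVariables false
set_option linter.unusedSectionVars false

open Filter MeasureTheory
open scoped Topology PeriodPair

namespace Pool.Agent.L0h4.AP.E

open H667R3 Pool.Agent.W192.HK Pool.Agent.TH936.CM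
open Pool.Agent.TH936.PU hiding pf
open Pool.Agent.Y696 Pool.Agent.Y715.T.Lat
open Pool.Agent.L0h86.F3 hiding Bv_eq
open Pool.Agent.L0h86.F1 (AdmM psM)
open Pool.Agent.L0h86.F4 (PA PA_scale PA_neg)
open Pool.Agent.L0h23.EV (int_all)
open Pool.Agent.L0h1.F3R (tg_three)
open Pool.Agent.L0h4.T4 (AdmC)
open Pool.Agent.L0h1.KD (tg)
open Pool.Agent.L0h75.IS (tgi)

lemma PA_four : PA 4 = c4 / 2 * ∫ x in {x : ℝ | 0 < psR x}, 2 / Real.sqrt (psR x) := by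
  rw [← period_one, int_all (psM 1)]
  unfold PA psM
  congr 1
  funext x
  congr 3
  norm_num

/-- the lattice with `g₃ = -4` -/
theorem exists_C4 : ∃ (L : PeriodPair) (Ω : ℂ), C4 L Ω ∧ (starRingEnd ℂ) (Ω ^ 2) = Ω ^ 2 ∧
    0 < PA 4 ∧ ∃ r : ℚ, r ≠ 0 ∧ ((PA 4 : ℝ) : ℂ) ^ 2 = r * Ω ^ 2 := by
  obtain ⟨Ω, hΩ, hC⟩ := exists_cur
  obtain ⟨u, hu, hR⟩ := exists_CR hC
  obtain ⟨ω, hω, h1⟩ := hR.exists_RP
  have hper := hR.real_period hω
  have hc := c4_pos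
  have hu0 : (u : ℂ) ≠ 0 := coe_ne hu.ne_zero
  have hcC : ((c4 : ℝ) : ℂ) ≠ 0 := by exact_mod_cast hc.ne'
  have hne : ((c4 : ℝ) : ℂ) / 2 * ((u : ℂ) * Ω) ≠ 0 :=
    mul_ne_zero (div_ne_zero hcC two_ne_zero) (mul_ne_zero hu0 hΩ)
  have hu6 : (u : ℂ) ^ 6 = 1 := by
    have h6 : u ^ 6 = 1 := by
      rw [unit_list] at hu
      have ho : omr ^ 3 = 1 := by
        apply Subtype.ext
        push_cast
        rw [omr_coe]
        exact om_cube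
      simp only [Set.mem_insert_iff, Set.mem_singleton_iff] at hu
      rcases hu with rfl | rfl | rfl | rfl | rfl | rfl
      · exact one_pow 6
      · ring
      · linear_combination (omr ^ 3 + 1) * ho
      · linear_combination (omr ^ 3 + 1) * ho
      · linear_combination (omr ^ 9 + omr ^ 6 + omr ^ 3 + 1) * ho
      · linear_combination (omr ^ 9 + omr ^ 6 + omr ^ 3 + 1) * ho
    have := congrArg (fun t : eis => (t : ℂ)) h6
    push_cast at this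
    exact this
  have hc6 : ((c4 : ℝ) : ℂ) ^ 6 = 16 := by
    have : c4 ^ 6 = 16 := by
      have := c4_cube
      calc c4 ^ 6 = (c4 ^ 3) ^ 2 := by ring
        _ = 16 := by rw [this]; norm_num
    exact_mod_cast congrArg (fun t : ℝ => (t : ℂ)) this
  have hg : (hex 1 one_ne_zero).g₃ = -Ω ^ 6 := by
    have h2 := hC.g3
    rw [hex_g3_scale hΩ] at h2
    have h3 : Ω ^ 6 ≠ 0 := pow_ne_zero 6 hΩ
    rw [div_eq_iff h3] at h2
    rw [h2]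
    ring
  refine ⟨hex _ hne, ((c4 : ℝ) : ℂ) / 2 * ((u : ℂ) * Ω), ⟨hex_lat _ hne, hex_g2 _ hne, ?_⟩, ?_, ?_, ?_⟩
  · rw [hex_g3_scale hne, hg]
    have h3 : Ω ^ 6 ≠ 0 := pow_ne_zero 6 hΩ
    have e : (((c4 : ℝ) : ℂ) / 2 * ((u : ℂ) * Ω)) ^ 6 = Ω ^ 6 / 4 := by
      calc (((c4 : ℝ) : ℂ) / 2 * ((u : ℂ) * Ω)) ^ 6 =
          ((c4 : ℝ) : ℂ) ^ 6 / 64 * ((u : ℂ) ^ 6 * Ω ^ 6) := by ring
        _ = Ω ^ 6 / 4 := by rw [hu6, hc6]; ring
    rw [e]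
    field_simp
  · rw [mul_pow, map_mul, hR.conj_sq, div_pow, map_div₀, map_pow, map_pow, Complex.conj_ofReal,
      map_ofNat]
  · rw [PA_four, hper]
    have := hω.pos
    positivity
  · rw [PA_four, hper]
    rcases h1 with h1 | h1
    · refine ⟨1, one_ne_zero, ?_⟩
      push_cast
      rw [mul_pow, mul_pow, h1]
      ring
    · refine ⟨-3, by norm_num, ?_⟩
      push_cast
      rw [mul_pow, mul_pow, h1]
      ring

lemma Om_PA (n : ℤ) : Om 0 (n ^ 3) = PA (4 * (n : ℝ) ^ 3) := by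
  rw [Om_all]
  unfold PA
  congr 1
  funext x
  have e : 4 * x ^ 3 + 4 * (n : ℝ) ^ 3 =
      2 ^ 2 * (x ^ 3 + ((0 : ℤ) : ℝ) * x + ((n ^ 3 : ℤ) : ℝ)) := by
    push_cast
    ring
  rw [e, Real.sqrt_mul (by norm_num), Real.sqrt_sq (by norm_num)]
  by_cases h5 : √(x ^ 3 + ((0 : ℤ) : ℝ) * x + ((n ^ 3 : ℤ) : ℝ)) = 0
  · rw [h5]
    simp
  · field_simp

lemma Om_pos' {n : ℤ} (hn : 0 < n) : Om 0 (n ^ 3) = PA 4 / √(n : ℝ) := by
  have hn' : (0 : ℝ) < n := by exact_mod_cast hn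
  rw [Om_PA, ← PA_scale hn', mul_comm]

lemma Om_neg' {n : ℤ} (hn : n < 0) : Om 0 (n ^ 3) = PA 4 / √3 / √(-n : ℝ) := by
  have hn' : (0 : ℝ) < -n := by
    have : (n : ℝ) < 0 := by exact_mod_cast hn
    linarith
  have h1 := PA_scale hn' (-4)
  have e : (-(n : ℝ)) ^ 3 * -4 = 4 * (n : ℝ) ^ 3 := by ring
  rw [e] at h1
  have h3 : √(3 : ℝ) ≠ 0 := by positivity
  rw [Om_PA, h1, PA_neg, mul_div_cancel_left₀ _ h3]

/-- the squares of the periods -/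
lemma Om_sq {Ω : ℂ} (h0 : 0 < PA 4) {r : ℚ} (hr0 : r ≠ 0) (hr : ((PA 4 : ℝ) : ℂ) ^ 2 = r * Ω ^ 2)
    {n : ℤ} (hn : n ≠ 0) : 0 < Om 0 (n ^ 3) ∧
    ∃ r : ℚ, r ≠ 0 ∧ ((Om 0 (n ^ 3) : ℝ) : ℂ) ^ 2 = r * Ω ^ 2 := by
  rcases lt_or_gt_of_ne hn with h | h
  · have hn' : (0 : ℝ) < -n := by
      have : (n : ℝ) < 0 := by exact_mod_cast h
      linarith
    rw [Om_neg' h]
    have h3 : 0 < √(3 : ℝ) := by positivity
    have h4 : 0 < √(-n : ℝ) := Real.sqrt_pos.2 hn'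
    have e3 : ((√(3 : ℝ) : ℝ) : ℂ) ^ 2 = 3 := by
      rw [← Complex.ofReal_pow, Real.sq_sqrt (by norm_num)]
      push_cast
      rfl
    have e4 : ((√(-n : ℝ) : ℝ) : ℂ) ^ 2 = -n := by
      rw [← Complex.ofReal_pow, Real.sq_sqrt hn'.le]
      push_cast
      rfl
    refine ⟨by positivity, r / (3 * -n), ?_, ?_⟩
    · refine div_ne_zero hr0 (mul_ne_zero (by norm_num) (neg_ne_zero.2 ?_))
      exact_mod_cast hn
    · push_cast
      rw [div_pow, div_pow, hr, e3, e4]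
      ring
  · have hn' : (0 : ℝ) < n := by exact_mod_cast h
    rw [Om_pos' h]
    have h4 : 0 < √(n : ℝ) := Real.sqrt_pos.2 hn'
    have e4 : ((√(n : ℝ) : ℝ) : ℂ) ^ 2 = n := by
      rw [← Complex.ofReal_pow, Real.sq_sqrt hn'.le]
      push_cast
      rfl
    refine ⟨by positivity, r / n, ?_, ?_⟩
    · refine div_ne_zero hr0 ?_
      exact_mod_cast hn
    · push_cast
      rw [div_pow, hr, e4]
      ring

/-- the periods are commensurable -/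
lemma Om_three {n : ℤ} (hn : n ≠ 0) : ∃ c : ℚ, c ≠ 0 ∧
    Om 0 ((-3 * n) ^ 3) = c * Om 0 (n ^ 3) := by
  have h3 : 0 < √(3 : ℝ) := by positivity
  have hs : √(3 : ℝ) * √(3 : ℝ) = 3 := Real.mul_self_sqrt (by norm_num)
  rcases lt_or_gt_of_ne hn with h | h
  · have hn' : (0 : ℝ) < -n := by
      have : (n : ℝ) < 0 := by exact_mod_cast h
      linarith
    have h4 : 0 < √(-n : ℝ) := Real.sqrt_pos.2 hn'
    rw [Om_neg' h, Om_pos' (by linarith : (0 : ℤ) < -3 * n)]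
    have e : √((-3 * n : ℤ) : ℝ) = √3 * √(-n : ℝ) := by
      rw [← Real.sqrt_mul (by norm_num)]
      congr 1
      push_cast
      ring
    rw [e]
    refine ⟨1, one_ne_zero, ?_⟩
    push_cast
    rw [one_mul, div_div]
  · have hn' : (0 : ℝ) < n := by exact_mod_cast h
    have h4 : 0 < √(n : ℝ) := Real.sqrt_pos.2 hn'
    rw [Om_pos' h, Om_neg' (by linarith : -3 * n < (0 : ℤ))]
    have e : √(-((-3 * n : ℤ) : ℝ)) = √3 * √(n : ℝ) := by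
      rw [← Real.sqrt_mul (by norm_num)]
      congr 1
      push_cast
      ring
    rw [e]
    refine ⟨1 / 3, by norm_num, ?_⟩
    push_cast
    rw [div_div, ← mul_assoc, hs]
    field_simp

/-- the statement for a twist -/
def LB (n : ℤ) : Prop := ∃ f : ℂ → ℂ, Lf 0 (n ^ 3) f ∧ 0 < Om 0 (n ^ 3) ∧
  ∃ r : ℚ, f 1 ^ 2 = r * ((Om 0 (n ^ 3) : ℝ) : ℂ) ^ 2

theorem lb_of {n : ℤ} (hn : n ≠ 0) (h : ∃ F : ℂ → ℂ, Differentiable ℂ F ∧
    (∀ s : ℂ, (3 : ℝ) / 2 < s.re → HasProd (tg 0 (n ^ 3) s) (F s)) ∧ SqvE F) : LB n := by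
  obtain ⟨f, h1, h2, h3⟩ := h
  obtain ⟨L, Ω, hL, hc, p0, r0, hr0, hr1⟩ := exists_C4
  obtain ⟨r, hr⟩ := h3 L Ω hL hc
  obtain ⟨q0, r', hr0', hr'⟩ := Om_sq p0 hr0 hr1 hn
  refine ⟨f, ⟨h1, h2⟩, q0, r / r', ?_⟩
  rw [hr, hr']
  have : (r' : ℂ) ≠ 0 := by exact_mod_cast hr0'
  push_cast
  field_simp

theorem lb_three {n : ℤ} (hn : n ≠ 0) (h : LB n) : LB (-3 * n) := by
  obtain ⟨f, ⟨h1, h2⟩, h3, r, hr⟩ := h
  obtain ⟨c, hc0, hc⟩ := Om_three hn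
  obtain ⟨L, Ω, hL, hcc, p0, r0, hr0, hr1⟩ := exists_C4
  refine ⟨f, ⟨h1, fun s hs => ?_⟩, (Om_sq p0 hr0 hr1 (mul_ne_zero (by norm_num) hn)).1,
    r / c ^ 2, ?_⟩
  · refine (congrArg (fun g => HasProd g (f s)) (funext fun p => ?_)).mp (h2 s hs)
    exact (tg_three n s p).symm
  · rw [hc, hr]
    have : (c : ℂ) ≠ 0 := by exact_mod_cast hc0
    push_cast
    field_simp

theorem lb_scale {n t : ℤ} (hn : n ≠ 0) (ht : t ≠ 0) (h : LB n) : LB (n * t ^ 2) := by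
  obtain ⟨f, ⟨h1, h2⟩, h3, r, hr⟩ := h
  obtain ⟨G, k1, k2, c, k3⟩ := fn_scale ht h1 h2
  have e1 : (0 : ℤ) * t ^ 4 = 0 := by ring
  have e2 : n ^ 3 * t ^ 6 = (n * t ^ 2) ^ 3 := by ring
  rw [e1, e2] at k2
  obtain ⟨L, Ω, hL, hcc, p0, r0, hr0, hr1⟩ := exists_C4
  obtain ⟨-, r1, hr2, hr3⟩ := Om_sq p0 hr0 hr1 hn
  obtain ⟨q0, r', hr0', hr'⟩ := Om_sq p0 hr0 hr1 (mul_ne_zero hn (pow_ne_zero 2 ht))
  refine ⟨G, ⟨k1, k2⟩, q0, r * c ^ 2 * r1 / r', ?_⟩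
  rw [k3, mul_pow, hr, hr3, hr']
  have : (r' : ℂ) ≠ 0 := by exact_mod_cast hr0'
  push_cast
  field_simp

/-- `n = D t²` or `n = -3 D t²`, `D` squarefree, prime to `3`, `|D| ≡ 1` modulo `4` or `D` even and
negative. -/
def ClB (n : ℤ) : Prop := ∃ D t : ℤ, Squarefree D ∧ ¬ 3 ∣ D ∧ (|D| % 4 = 1 ∨ D < 0 ∧ 2 ∣ D) ∧
  t ≠ 0 ∧ (n = D * t ^ 2 ∨ n = -3 * D * t ^ 2)

lemma ClB.ne {n : ℤ} (h : ClB n) : n ≠ 0 := by
  obtain ⟨D, t, h1, h2, h3, h4, h5⟩ := h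
  have hD := h1.ne_zero
  rcases h5 with rfl | rfl
  · exact mul_ne_zero hD (pow_ne_zero 2 h4)
  · exact mul_ne_zero (mul_ne_zero (by norm_num) hD) (pow_ne_zero 2 h4)

lemma ClB.neg {n : ℤ} (h : ClB n) : ClB (-3 * n) := by
  obtain ⟨D, t, h1, h2, h3, h4, h5⟩ := h
  rcases h5 with rfl | rfl
  · exact ⟨D, t, h1, h2, h3, h4, Or.inr (by ring)⟩
  · exact ⟨D, 3 * t, h1, h2, h3, mul_ne_zero (by norm_num) h4, Or.inl (by ring)⟩

theorem lb_base {D : ℤ} (h1 : Squarefree D) (h2 : ¬ 3 ∣ D) (h3 : |D| % 4 = 1 ∨ D < 0 ∧ 2 ∣ D) :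
    LB D := by
  have hn0 := h1.ne_zero
  have hsf : Squarefree D.natAbs := Int.squarefree_natAbs.2 h1
  have hn3 : ¬ 3 ∣ D.natAbs := fun h => h2 (Int.natCast_dvd.2 (by exact_mod_cast h))
  rcases h3 with h3 | ⟨h3, h4⟩
  · have hA : AdmM D.natAbs := ⟨hsf, by
      rw [Int.abs_eq_natAbs] at h3
      omega, hn3⟩
    rcases abs_choice D with h | h
    · have e : ((D.natAbs : ℕ) : ℤ) = D := by rw [← Int.abs_eq_natAbs, h]
      have := lb_of (n := ((D.natAbs : ℕ) : ℤ)) (by rw [e]; exact hn0) (sqM hA)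
      rwa [e] at this
    · have e : -((D.natAbs : ℕ) : ℤ) = D := by rw [← Int.abs_eq_natAbs, h, neg_neg]
      have := lb_of (n := -((D.natAbs : ℕ) : ℤ)) (by rw [e]; exact hn0) (sqN hA)
      rwa [e] at this
  · have h5 : 2 ∣ D.natAbs := Int.natCast_dvd.1 (by exact_mod_cast h4)
    obtain ⟨m, hm⟩ := h5
    have hC : AdmC m := by
      refine ⟨?_, ?_, ?_⟩
      · exact hsf.squarefree_of_dvd ⟨2, by rw [hm]; ring⟩
      · by_contra hc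
        have h6 : 2 * 2 ∣ D.natAbs := by
          rw [hm]
          exact mul_dvd_mul_left 2 (by omega)
        have := hsf 2 h6
        rw [Nat.isUnit_iff] at this
        omega
      · intro h
        apply hn3
        rw [hm]
        exact Dvd.dvd.mul_left h 2
    have e : -2 * (m : ℤ) = D := by omega
    have := lb_of (n := -2 * (m : ℤ)) (by rw [e]; exact hn0) (sqC hC)
    rwa [e] at this

theorem lb_all {n : ℤ} (h : ClB n) : LB n := by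
  obtain ⟨D, t, h1, h2, h3, h4, h5⟩ := h
  have hb := lb_base h1 h2 h3
  rcases h5 with rfl | rfl
  · exact lb_scale h1.ne_zero h4 hb
  · have h6 := lb_three h1.ne_zero hb
    exact lb_scale (mul_ne_zero (by norm_num) h1.ne_zero) h4 h6

/-- the square -/
theorem leadB_sq {n : ℤ} (h : ClB n) {f : ℂ → ℂ} (hf : Lf 0 (n ^ 3) f)
    (h0 : f 1 ≠ 0) : 0 < Om 0 (n ^ 3) ∧
      ∃ r : ℚ, r ≠ 0 ∧ f 1 ^ 2 = r * ((Om 0 (n ^ 3) : ℝ) : ℂ) ^ 2 := by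
  obtain ⟨g, hg, p0, r, hr⟩ := lb_all h
  rw [← hf.eq hg] at hr
  refine ⟨p0, r, ?_, hr⟩
  rintro rfl
  rw [Rat.cast_zero, zero_mul] at hr
  exact h0 (pow_eq_zero_iff two_ne_zero |>.1 hr)

/-- the two twists together -/
theorem leadB_pair {n : ℤ} (h : ClB n) {f g : ℂ → ℂ} (hf : Lf 0 (n ^ 3) f)
    (hg : Lf 0 ((-3 * n) ^ 3) g) (h0 : f 1 ≠ 0) :
    ∃ r : ℚ, r ≠ 0 ∧ f 1 * g 1 = r * (((Om 0 (n ^ 3) : ℝ) : ℂ) *
      ((Om 0 ((-3 * n) ^ 3) : ℝ) : ℂ)) := by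
  obtain ⟨p0, r, hr0, hr⟩ := leadB_sq h hf h0
  obtain ⟨c, hc0, hc⟩ := Om_three h.ne
  have hg' : Lf 0 (n ^ 3) g := by
    refine ⟨hg.1, fun s hs => ?_⟩
    refine (congrArg (fun k => HasProd k (g s)) (funext fun p => ?_)).mp (hg.2 s hs)
    exact tg_three n s p
  rw [← hf.eq hg', hc]
  refine ⟨r / c, div_ne_zero hr0 hc0, ?_⟩
  have : (c : ℂ) ≠ 0 := by exact_mod_cast hc0
  rw [← pow_two, hr]
  push_cast
  field_simp

end Pool.Agent.L0h4.AP.E
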