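import Pool.Agent.H977R3.CM.Aut
import Pool.Agent.Y698.Pra

/-!
# Algebraic numbers that are fixed by all the automorphisms of the complex numbers
-/

set_option autoImplicit false
set_option linter.unusedSectionVars false

namespace Pool.Agent.L0h4.AP

open Pool.Agent.Y698

theorem rat_of_fixed {z : ℂ} (hz : IsAlgebraic ℚ z) (h : ∀ σ : ℂ ≃+* ℂ, σ z = z) :
    ∃ q : ℚ, z = q := by
  have hc : IsAlgClosure ℚ (algebraicClosure ℚ ℂ) := algebraicClosure.isAlgClosure ℚ ℂ
  have hg : IsGalois ℚ (algebraicClosure ℚ ℂ) := IsAlgClosure.isGalois ℚ (algebraicClosure ℚ ℂ)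
  have hzQ : z ∈ algebraicClosure ℚ ℂ := mem_algebraicClosure_iff.2 hz
  have h1 : (⟨z, hzQ⟩ : algebraicClosure ℚ ℂ) ∈ Set.range (algebraMap ℚ (algebraicClosure ℚ ℂ)) := by
    rw [InfiniteGalois.mem_range_algebraMap_iff_fixed]
    intro g
    obtain ⟨σ, hσ⟩ := Pool.Agent.H977R3.CM.exists_aut (algebraMap (algebraicClosure ℚ ℂ) ℂ) (g : algebraicClosure ℚ ℂ ≃+* algebraicClosure ℚ ℂ)
    have h2 := hσ ⟨z, hzQ⟩
    have h3 : σ z = z := h σ
    apply Subtype.ext
    have h4 : algebraMap (algebraicClosure ℚ ℂ) ℂ ⟨z, hzQ⟩ = z := rfl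
    rw [h4, h3] at h2
    exact h2.symm
  obtain ⟨q, hq⟩ := h1
  refine ⟨q, ?_⟩
  have := congrArg (fun t : algebraicClosure ℚ ℂ => (t : ℂ)) hq
  simpa using this.symm

/-- real algebraic numbers that are fixed by the automorphisms over `ℚ(√-7)` -/
theorem rat_of_fixed_al {z : ℂ} (hz : IsAlgebraic ℚ z) (hr : (starRingEnd ℂ) z = z)
    (h : ∀ σ : ℂ ≃+* ℂ, σ al = al → σ z = z) : ∃ q : ℚ, z = q := by
  refine rat_of_fixed hz fun σ => ?_
  have h1 : σ al ^ 2 = σ al - 2 := by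
    rw [← map_pow, al_sq, map_sub, map_ofNat]
  have h2 : (σ al - al) * (σ al - (1 - al)) = 0 := by
    linear_combination h1 - al_sq
  rcases mul_eq_zero.1 h2 with h3 | h3
  · exact h σ (sub_eq_zero.1 h3)
  · have hc : (starRingEnd ℂ) al = 1 - al := by
      rw [conj_al]
      rfl
    have h4 : σ al = 1 - al := sub_eq_zero.1 h3
    let τ : ℂ ≃+* ℂ := σ.trans Complex.conjAe.toRingEquiv
    have h5 : τ al = al := by
      show (starRingEnd ℂ) (σ al) = al
      rw [h4, map_sub, map_one, hc]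
      ring
    have h6 : (starRingEnd ℂ) (σ z) = z := h τ h5
    have h7 := congrArg (starRingEnd ℂ) h6
    rw [Complex.conj_conj, hr] at h7
    exact h7

end Pool.Agent.L0h4.AP
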