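import Pool.Agent.L0h4.AP.Gal
import Pool.Agent.L0h4.AP.Rat

/-!
# The square of the central value over the period is a rational number
-/

set_option autoImplicit false
set_option linter.unusedSectionVars false

open Filter
open scoped Topology PeriodPair

namespace Pool.Agent.L0h4.AP

open Pool.Agent.Y698 Pool.Agent.Y698.SG Pool.Agent.L0h4.TW
open H667R3 Pool.Agent.W192.HK Pool.Agent.TH936.CM Pool.Agent.TH936.PU Pool.Agent.W245.EB
open Pool.Agent.W192.CM (nu)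

variable {L : PeriodPair} {Ω : ℂ}

lemma al_QB : al ∈ QB := by
  rw [mem_QB]
  exact quad_alg (-2) 1 al (by
    have := al_sq
    push_cast
    linear_combination this)

lemma RR_QB (r : RR) : (r : ℂ) ∈ QB := by
  obtain ⟨x, y, hr⟩ := (qr.mem r).1 r.2
  rw [hr]
  exact add_mem (intCast_mem QB x) (mul_mem (intCast_mem QB y) al_QB)

/-- the ideals are principal -/
lemma gen_eq (I : Ideal RR) : I = sp (Submodule.IsPrincipal.generator I) :=
  (Ideal.span_singleton_generator I).symm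

/-- the values are `0`, `x`, `-x` -/
def Pm (θ : Ideal RR → ℂ) : Prop := ∀ x : RR, θ (sp x) = 0 ∨ θ (sp x) = x ∨ θ (sp x) = -x

lemma Pm.cases {θ : Ideal RR → ℂ} (h : Pm θ) (I : Ideal RR) : ∃ x : RR, θ I = x := by
  have h1 := gen_eq I
  rcases h (Submodule.IsPrincipal.generator I) with h2 | h2 | h2
  · exact ⟨0, by rw [h1, h2]; simp⟩
  · exact ⟨Submodule.IsPrincipal.generator I, by rw [← h2, ← h1]⟩
  · exact ⟨-Submodule.IsPrincipal.generator I, by push_cast; rw [← h2, ← h1]⟩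

theorem sq_fix {q : Ideal RR} {θ : Ideal RR → ℂ} (hθ : HC 1 q θ) (hv : Pm θ) {F : ℂ → ℂ}
    (hF1 : Differentiable ℂ F)
    (hF2 : ∀ z : ℂ, 3 / 2 < z.re → HasSum (fun I : Ideal RR => θ I * (nm I : ℂ) ^ (-z)) (F z))
    (h : LD L Ω) : IsAlgebraic ℚ (((starRingEnd ℂ) (F 1) / Ω) ^ 2) ∧
      ∀ σ : ℂ ≃+* ℂ, σ al = al →
        σ (((starRingEnd ℂ) (F 1) / Ω) ^ 2) = ((starRingEnd ℂ) (F 1) / Ω) ^ 2 := by
  classical
  have hbasic := Pool.Agent.W287.HK.h_basic
  have hcls := Pool.Agent.W571.HK.h_cls hbasic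
  have hfp := Pool.Agent.W53.HK.h_fp hbasic hcls
  have hfpr := Pool.Agent.W366.HK.h_fpr hbasic hcls
  have hlat := Pool.Agent.W585.HK.h_lat hbasic
  have hker := Pool.Agent.W692.HK.h_ker hbasic hcls hfpr
  have hcnt := Pool.Agent.W584.HK.h_cnt hbasic hcls hfpr hlat hker
  have hdec := Pool.Agent.W856.HK.h_dec hbasic
  have hgauss := Pool.Agent.W636.HK.h_gauss hbasic hfp
  have hpois := Pool.Agent.W348.HK.h_pois hbasic
  have htheta := Pool.Agent.TH936.HK.h_theta hbasic hfp hdec hgauss hpois hcnt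
  have hafe := Pool.Agent.TH936.HK.h_afe hbasic hfp hcnt hgauss htheta
  have hL := h.lat
  obtain ⟨m, hh1, hpr, hsys⟩ := hcls RR al qr
  obtain ⟨s, hh, μ, T, -, hS⟩ := hsys q hθ.ne
  have := qr.ded
  have hJ : q * hh ≠ ⊥ := by
    rw [← Ideal.zero_eq_bot]
    refine mul_ne_zero ?_ ?_
    · rw [Ideal.zero_eq_bot]; exact hθ.ne
    · rw [Ideal.zero_eq_bot]; exact hS.ne
  obtain ⟨n, hn0, hnJ⟩ := exists_nat hbasic qr _ hJ
  have hle1 : q * hh ≤ q := Ideal.mul_le_left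
  have hle2 : q * hh ≤ hh := Ideal.mul_le_right
  have hnq : (n : RR) ∈ q := hle1 hnJ
  have hnb : ∀ b ∈ s, (n : RR) ∈ b := by
    intro b hb
    have h9 : hh ≤ b := Ideal.le_of_dvd (hS.dvd b hb)
    exact h9 (hle2 hnJ)
  obtain ⟨b1, -⟩ := hbasic RR al qr
  have hk0 : 0 < n + 1 := by omega
  have i1 := b1 _ (sp_ne (R := RR) hn0)
  have i2 := b1 _ (sp_ne (R := RR) hk0)
  have i3 := b1 _ (sp_ne (R := RR) (Nat.mul_pos hn0 hk0))
  let _ : Fintype (RR ⧸ sp (n : RR)) := Fintype.ofFinite _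
  let _ : Fintype (RR ⧸ sp ((n + 1 : ℕ) : RR)) := Fintype.ofFinite _
  obtain ⟨G, g1, g2, g3⟩ := cenV hbasic hfp hcnt hdec hafe qr hL hS hn0 hnq hnb rfl hθ
  have hFG : F = G := entire_eq hF1 g1 (3 / 2) fun z hz => (hF2 z hz).unique (g2 z hz)
  rw [← hFG] at g3
  have hθ' : HC (2 * 1 - 1) q θ := hθ
  have hqt := hθ'.ne_top le_rfl
  obtain ⟨-, f2, f3, f4, f5⟩ := hfp RR al qr 1 q θ hθ hqt
  have hfv : ∀ x : RR, fp 1 θ x = 0 ∨ fp 1 θ x = 1 ∨ fp 1 θ x = -1 := by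
    intro x
    unfold fp
    rw [pow_one]
    by_cases hx : (x : ℂ) = 0
    · left
      rw [hx, div_zero]
    · rcases hv x with h1 | h1 | h1
      · left; rw [h1, zero_div]
      · right; left; rw [h1, div_self hx]
      · right; right; rw [h1, neg_div, div_self hx]
  set S : ℂ := ∑ b ∈ s, θ b * AA L Ω n (n + 1) (cb θ b) with hSdef
  have hg2 : IsAlgebraic ℚ L.g₂ := by
    rw [h.g2, ← mem_QB]
    exact div_mem (ofNat_mem QB 35) (ofNat_mem QB 4)
  have hg3 : IsAlgebraic ℚ L.g₃ := by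
    rw [h.g3, ← mem_QB]
    exact div_mem (ofNat_mem QB 49) (ofNat_mem QB 8)
  have hSQ : S ∈ QB := by
    refine sum_mem fun b _ => mul_mem ?_ (AA_alg hg2 hg3 hL hn0 hk0 fun x => ?_)
    · obtain ⟨x, hx⟩ := hv.cases b
      rw [hx]
      exact RR_QB x
    · unfold cb
      split_ifs
      · rcases hfv x with h1 | h1 | h1
        · rw [h1, map_zero]; exact zero_mem _
        · rw [h1, map_one]; exact one_mem _
        · rw [h1, map_neg, map_one]; exact neg_mem (one_mem _)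
      · exact zero_mem _
  refine ⟨?_, fun σ hσ => ?_⟩
  · rw [g3, ← mem_QB]
    refine pow_mem (div_mem hSQ (mul_mem (mul_mem (mul_mem (ofNat_mem QB 2) (natCast_mem QB _))
      (natCast_mem QB _)) (sub_mem (natCast_mem QB _) (pow_mem (natCast_mem QB _) 2)))) 2
  · obtain ⟨u, hu1, hu2⟩ := galV hfp qr hL hn0 hk0 hnq hnb i3 (sig_RR hσ) (sig_g2 h σ)
      (sig_g3 h σ) (lin_RR h hσ) hθ hθ (fun I => by
        obtain ⟨x, hx⟩ := hv.cases I
        rw [hx, sig_RR hσ])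
    have hu3 : ((starRingEnd ℂ) (fp 1 θ u)) ^ 2 = 1 := by
      have h0 : fp 1 θ u ≠ 0 := fun h1 => (f3 u).1 h1 hu1
      rcases hfv u with h1 | h1 | h1
      · exact absurd h1 h0
      · rw [h1, map_one, one_pow]
      · rw [h1, map_neg, map_one]; norm_num
    have hS2 : σ S ^ 2 = S ^ 2 := by
      have e := congrArg (fun t => t ^ 2) hu2
      simp only [mul_pow, hu3, one_mul] at e
      exact e
    rw [g3, div_pow, map_div₀, map_pow, hS2]
    congr 1
    simp only [map_pow, map_mul, map_sub, map_natCast, map_ofNat]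

/-- **the square of the central value over the period is rational** -/
theorem sq_rat {q : Ideal RR} {θ : Ideal RR → ℂ} (hθ : HC 1 q θ) (hv : Pm θ) {F : ℂ → ℂ}
    (hF1 : Differentiable ℂ F)
    (hF2 : ∀ z : ℂ, 3 / 2 < z.re → HasSum (fun I : Ideal RR => θ I * (nm I : ℂ) ^ (-z)) (F z))
    (hreal : (starRingEnd ℂ) (F 1) = F 1) (h : LD L Ω) : ∃ r : ℚ, F 1 ^ 2 = r * Ω ^ 2 := by
  obtain ⟨h1, h2⟩ := sq_fix hθ hv hF1 hF2 h
  rw [hreal] at h1 h2
  have hΩ := h.lat.ne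
  obtain ⟨r, hr⟩ := rat_of_fixed_al h1 (by
    rw [div_pow, map_div₀, map_pow, hreal, h.conj_sq]) h2
  refine ⟨r, ?_⟩
  rw [← hr]
  field_simp

end Pool.Agent.L0h4.AP
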