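import Pool.Agent.L0h4.AP.LinE
import Pool.Agent.L0h4.T3.Psi

/-!
# The square of the central value over the period is a rational number, the ring `ℤ[ω]`
-/

set_option autoImplicit false
set_option linter.unusedSectionVars false

open Filter
open scoped Topology PeriodPair

namespace Pool.Agent.L0h4.AP.E

section

open H667R3 Pool.Agent.W245.EB Pool.Agent.W192.HK Pool.Agent.TH936.CM
open Pool.Agent.W192.CM (nu)

variable {R : Subring ℂ} {L : PeriodPair} {Ω : ℂ}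

theorem galW (h2 : H_FP) {ω : ℂ} (hR : QR R ω) (hL : IsLat L R Ω) {q : Ideal R}
    {s : Finset (Ideal R)} {n k : ℕ} (hn : 0 < n) (hk : 0 < k) (hnq : (n : R) ∈ q)
    (hnb : ∀ b ∈ s, (n : R) ∈ b) [Fintype (R ⧸ sp (n : R))] [Fintype (R ⧸ sp (k : R))]
    (hfin : Finite (R ⧸ sp ((n * k : ℕ) : R))) {σ : ℂ ≃+* ℂ} (hσR : ∀ r : R, σ (r : ℂ) = r)
    (hσ2 : σ L.g₂ = L.g₂) (hσ3 : σ L.g₃ = L.g₃)
    (hlin : ∀ z z', Rl L σ z z' → ∀ r : R, Rl L σ (r * z) (r * z')) {θ θ' : Ideal R → ℂ}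
    (hθ : HC 1 q θ) (hθ' : HC 1 q θ') (hσθ : ∀ I, σ (θ I) = θ' I) :
    ∃ u : R, (∀ r : R, Rl L σ (Ω * r / (n * k : ℕ)) (Ω * (u * r : R) / (n * k : ℕ))) ∧
      IsCoprime (sp u) q ∧ (starRingEnd ℂ) (fp 1 θ' u) *
      σ (∑ b ∈ s, θ b * AA L Ω n k (cb θ b)) = ∑ b ∈ s, θ' b * AA L Ω n k (cb θ' b) := by
  have hnk : 0 < n * k := Nat.mul_pos hn hk
  obtain ⟨u, v, huv, hu⟩ := exists_unit hL σ hσ2 hσ3 hlin (n * k) hnk hfin
  have hq1 : HC (2 * 1 - 1) q θ := hθ
  have hq1' : HC (2 * 1 - 1) q θ' := hθ'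
  have hqt := hq1.ne_top le_rfl
  obtain ⟨-, f2, f3, f4, f5⟩ := h2 R ω hR 1 q θ hθ hqt
  obtain ⟨-, f2', f3', f4', f5'⟩ := h2 R ω hR 1 q θ' hθ' hqt
  have hfp : ∀ x : R, σ (fp 1 θ x) = fp 1 θ' x := by
    intro x
    unfold fp
    rw [map_div₀, map_pow, hσθ, hσR]
  have hconj : ∀ (φ : Ideal R → ℂ), (∀ α : R, fp 1 φ α = 0 ↔ ¬ IsCoprime (sp α) q) →
      (∀ α : R, IsCoprime (sp α) q → ‖fp 1 φ α‖ = 1) → ∀ x : R,
      (starRingEnd ℂ) (fp 1 φ x) = (fp 1 φ x)⁻¹ := by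
    intro φ g3 g4 x
    by_cases h : IsCoprime (sp x) q
    · have h6 := g4 x h
      rw [Complex.inv_def, Complex.normSq_eq_norm_sq, h6]
      simp
    · rw [(g3 x).2 h, map_zero, inv_zero]
  have hcc : ∀ b x, σ (cb θ b x) = cb θ' b x := by
    intro b x
    unfold cb
    split_ifs
    · rw [hconj θ f3 f4, hconj θ' f3' f4', map_inv₀, hfp]
    · exact map_zero σ
  -- `u` is a unit modulo `q`
  have hin : ∀ I : Ideal R, (n : R) ∈ I → u * v - 1 ∈ I := by
    intro I hI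
    obtain ⟨w, hw⟩ := Ideal.mem_span_singleton'.1 huv
    rw [← hw]
    push_cast
    rw [← mul_assoc]
    exact I.mul_mem_right _ (I.mul_mem_left _ hI)
  have hucop : IsCoprime (sp u) q := by
    rw [Ideal.isCoprime_iff_sup_eq, Ideal.eq_top_iff_one]
    have h6 : (1 : R) = u * v - (u * v - 1) := by ring
    rw [h6]
    refine Ideal.sub_mem _ ?_ (Ideal.mem_sup_right (hin q hnq))
    exact Ideal.mem_sup_left (Ideal.mul_mem_right _ _ (Ideal.mem_span_singleton_self u))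
  set e : ℂ := (starRingEnd ℂ) (fp 1 θ' u) with he
  have he0 : e ≠ 0 := by
    rw [he]
    refine (map_ne_zero _).2 ?_
    rw [Ne, f3', not_not]
    exact hucop
  have hmem : ∀ b ∈ s, ∀ x : R, u * x ∈ b ↔ x ∈ b := by
    intro b hb x
    constructor
    · intro h
      have h6 : x = v * (u * x) - (u * v - 1) * x := by ring
      rw [h6]
      exact b.sub_mem (b.mul_mem_left _ h) (b.mul_mem_right _ (hin b (hnb b hb)))
    · exact fun h => b.mul_mem_left _ h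
  have hcu : ∀ b ∈ s, ∀ x : R, cb θ' b (u * x) = e * cb θ' b x := by
    intro b hb x
    unfold cb
    by_cases hx : x ∈ b
    · rw [if_pos hx, if_pos ((hmem b hb x).2 hx), f2', map_mul]
    · rw [if_neg hx, if_neg (fun h => hx ((hmem b hb x).1 h)), mul_zero]
  have hmain : e * σ (∑ b ∈ s, θ b * AA L Ω n k (cb θ b)) =
      ∑ b ∈ s, θ' b * AA L Ω n k (cb θ' b) := by
    rw [map_sum, Finset.mul_sum]
    refine Finset.sum_congr rfl fun b hb => ?_
    obtain ⟨g1, g2, -⟩ := cb_facts h2 hR hθ' hnq (hnb b hb)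
    rw [map_mul, hσθ, mul_left_comm, AA_map hL hn hk huv hu (hcc b) g1 g2 (hcu b hb)]
  exact ⟨u, hu, hucop, hmain⟩

end

open H667R3 Pool.Agent.W192.HK Pool.Agent.TH936.CM Pool.Agent.TH936.PU Pool.Agent.W245.EB
open Pool.Agent.W192.CM (nu)
open Pool.Agent.Y696 Pool.Agent.Y715.T.Lat Pool.Agent.Y715.T.Three
open Pool.Agent.L0h4.AP (cenV AA_alg rat_of_fixed)

variable {L : PeriodPair} {Ω : ℂ}

/-- real algebraic numbers that are fixed by the automorphisms over `ℚ(√-3)` -/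
theorem rat_of_fixed_om {z : ℂ} (hz : IsAlgebraic ℚ z) (hr : (starRingEnd ℂ) z = z)
    (h : ∀ σ : ℂ ≃+* ℂ, σ om = om → σ z = z) : ∃ q : ℚ, z = q := by
  refine rat_of_fixed hz fun σ => ?_
  have h1 : σ om ^ 2 + σ om + 1 = 0 := by
    have := congrArg σ om_sq
    simpa using this
  have h2 : (σ om - om) * (σ om - (-1 - om)) = 0 := by
    linear_combination h1 - om_sq
  have hc : (starRingEnd ℂ) om = -1 - om := by
    apply Complex.ext
    · simp [om]
      norm_num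
    · simp [om]
  rcases mul_eq_zero.1 h2 with h3 | h3
  · exact h σ (sub_eq_zero.1 h3)
  · have h4 : σ om = -1 - om := sub_eq_zero.1 h3
    let τ : ℂ ≃+* ℂ := σ.trans Complex.conjAe.toRingEquiv
    have h5 : τ om = om := by
      show (starRingEnd ℂ) (σ om) = om
      rw [h4, map_sub, map_neg, map_one, hc]
      ring
    have h6 : (starRingEnd ℂ) (σ z) = z := h τ h5
    have h7 := congrArg (starRingEnd ℂ) h6
    rw [Complex.conj_conj, hr] at h7
    exact h7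

lemma om_QB : om ∈ QB := by
  rw [mem_QB]
  exact quad_alg (-1) (-1) om (by
    have := om_sq
    push_cast
    linear_combination this)

lemma eis_QB (r : eis) : (r : ℂ) ∈ QB := by
  obtain ⟨x, y, hr⟩ := (qr.mem r).1 r.2
  rw [hr]
  exact add_mem (intCast_mem QB x) (mul_mem (intCast_mem QB y) om_QB)

/-- the values lie in the ring, and are `0`, `x`, `-x` at the principal ideals with `x ≡ 1` -/
structure Pm6 (θ : Ideal eis → ℂ) : Prop where
  val : ∀ I, ∃ x : eis, θ I = x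
  pm : ∀ x : eis, x - 1 ∈ (sp (2 * la) : Ideal eis) →
    θ (sp x) = 0 ∨ θ (sp x) = x ∨ θ (sp x) = -x

theorem sq_fix {q : Ideal eis} (hq6 : q ≤ sp (2 * la)) {θ : Ideal eis → ℂ} (hθ : HC 1 q θ)
    (hv : Pm6 θ) {F : ℂ → ℂ} (hF1 : Differentiable ℂ F)
    (hF2 : ∀ z : ℂ, 3 / 2 < z.re → HasSum (fun I : Ideal eis => θ I * (nm I : ℂ) ^ (-z)) (F z))
    (h : C4 L Ω) : IsAlgebraic ℚ (((starRingEnd ℂ) (F 1) / Ω) ^ 2) ∧
      ∀ σ : ℂ ≃+* ℂ, σ om = om →
        σ (((starRingEnd ℂ) (F 1) / Ω) ^ 2) = ((starRingEnd ℂ) (F 1) / Ω) ^ 2 := by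
  classical
  have hbasic := Pool.Agent.W287.HK.h_basic
  have hcls := Pool.Agent.W571.HK.h_cls hbasic
  have hfp := Pool.Agent.W53.HK.h_fp hbasic hcls
  have hfpr := Pool.Agent.W366.HK.h_fpr hbasic hcls
  have hlat := Pool.Agent.W585.HK.h_lat hbasic
  have hker := Pool.Agent.W692.HK.h_ker hbasic hcls hfpr
  have hcnt := Pool.Agent.W584.HK.h_cnt hbasic hcls hfpr hlat hker
  have hdec := Pool.Agent.W856.HK.h_dec hbasic
  have hgauss := Pool.Agent.W636.HK.h_gauss hbasic hfp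
  have hpois := Pool.Agent.W348.HK.h_pois hbasic
  have htheta := Pool.Agent.TH936.HK.h_theta hbasic hfp hdec hgauss hpois hcnt
  have hafe := Pool.Agent.TH936.HK.h_afe hbasic hfp hcnt hgauss htheta
  have hL := h.lat
  obtain ⟨m, hh1, hpr, hsys⟩ := hcls eis om qr
  obtain ⟨s, hh, μ, T, -, hS⟩ := hsys q hθ.ne
  have := qr.ded
  have hJ : q * hh ≠ ⊥ := by
    rw [← Ideal.zero_eq_bot]
    refine mul_ne_zero ?_ ?_
    · rw [Ideal.zero_eq_bot]; exact hθ.ne
    · rw [Ideal.zero_eq_bot]; exact hS.ne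
  obtain ⟨n, hn0, hnJ⟩ := exists_nat hbasic qr _ hJ
  have hle1 : q * hh ≤ q := Ideal.mul_le_left
  have hle2 : q * hh ≤ hh := Ideal.mul_le_right
  have hnq : (n : eis) ∈ q := hle1 hnJ
  have hnb : ∀ b ∈ s, (n : eis) ∈ b := by
    intro b hb
    have h9 : hh ≤ b := Ideal.le_of_dvd (hS.dvd b hb)
    exact h9 (hle2 hnJ)
  obtain ⟨b1, -⟩ := hbasic eis om qr
  have hk0 : 0 < n + 1 := by omega
  have i1 := b1 _ (sp_ne (R := eis) hn0)
  have i2 := b1 _ (sp_ne (R := eis) hk0)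
  have i3 := b1 _ (sp_ne (R := eis) (Nat.mul_pos hn0 hk0))
  let _ : Fintype (eis ⧸ sp (n : eis)) := Fintype.ofFinite _
  let _ : Fintype (eis ⧸ sp ((n + 1 : ℕ) : eis)) := Fintype.ofFinite _
  obtain ⟨G, g1, g2, g3⟩ := cenV hbasic hfp hcnt hdec hafe qr hL hS hn0 hnq hnb rfl hθ
  have hFG : F = G := entire_eq hF1 g1 (3 / 2) fun z hz => (hF2 z hz).unique (g2 z hz)
  rw [← hFG] at g3
  have hθ' : HC (2 * 1 - 1) q θ := hθ
  have hqt := hθ'.ne_top le_rfl
  obtain ⟨-, f2, f3, f4, f5⟩ := hfp eis om qr 1 q θ hθ hqt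
  have hlaz : ((2 * la : eis) : ℂ) ≠ 0 := by
    push_cast
    rw [la_coe]
    exact mul_ne_zero two_ne_zero lam_ne'
  set S : ℂ := ∑ b ∈ s, θ b * AA L Ω n (n + 1) (cb θ b) with hSdef
  have hg2 : IsAlgebraic ℚ L.g₂ := by
    rw [h.g2, ← mem_QB]
    exact zero_mem QB
  have hg3 : IsAlgebraic ℚ L.g₃ := by
    rw [h.g3, ← mem_QB]
    exact neg_mem (ofNat_mem QB 4)
  have hfQ : ∀ x : eis, fp 1 θ x ∈ QB := by
    intro x
    obtain ⟨y, hy⟩ := hv.val (sp x)
    unfold fp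
    rw [hy]
    exact div_mem (eis_QB y) (pow_mem (eis_QB x) 1)
  have hcQ : ∀ z : ℂ, z ∈ QB → (starRingEnd ℂ) z ∈ QB := by
    intro z hz
    rw [mem_QB] at hz ⊢
    exact hz.algHom (Complex.conjAe.toAlgHom.restrictScalars ℚ)
  have hSQ : S ∈ QB := by
    refine sum_mem fun b _ => mul_mem ?_ (AA_alg hg2 hg3 hL hn0 hk0 fun x => ?_)
    · obtain ⟨x, hx⟩ := hv.val b
      rw [hx]
      exact eis_QB x
    · unfold cb
      split_ifs
      · exact hcQ _ (hfQ x)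
      · exact zero_mem _
  refine ⟨?_, fun σ hσ => ?_⟩
  · rw [g3, ← mem_QB]
    refine pow_mem (div_mem hSQ (mul_mem (mul_mem (mul_mem (ofNat_mem QB 2) (natCast_mem QB _))
      (natCast_mem QB _)) (sub_mem (natCast_mem QB _) (pow_mem (natCast_mem QB _) 2)))) 2
  · obtain ⟨u, hu0, hu1, hu2⟩ := galW hfp qr hL hn0 hk0 hnq hnb i3 (sig_eis hσ) (sig_g2 h σ)
      (sig_g3 h σ) (lin_eis h hσ) hθ hθ (fun I => by
        obtain ⟨x, hx⟩ := hv.val I
        rw [hx, sig_eis hσ])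
    -- `u ≡ 1` modulo `2 √-3`
    have hu6 : u - 1 ∈ (sp (2 * la) : Ideal eis) := by
      have h1 : (2 * la : eis) ∣ ((n * (n + 1) : ℕ) : eis) := by
        have h2 := hq6 hnq
        rw [Ideal.mem_span_singleton] at h2
        refine h2.trans ⟨((n + 1 : ℕ) : eis), by push_cast; ring⟩
      obtain ⟨r, hr⟩ := h1
      have hm0 : (((n * (n + 1) : ℕ)) : ℂ) ≠ 0 := by
        exact_mod_cast (Nat.mul_pos hn0 hk0).ne'
      have hrC : (((n * (n + 1) : ℕ)) : ℂ) = ((2 * la : eis) : ℂ) * (r : ℂ) := by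
        have := congrArg (fun t : eis => (t : ℂ)) hr
        push_cast at this ⊢
        exact this
      have hr0 : (r : ℂ) ≠ 0 := by
        intro h0
        rw [h0, mul_zero] at hrC
        exact hm0 hrC
      have h3 := hu0 r
      have e1 : Ω * (r : ℂ) / ((n * (n + 1) : ℕ) : ℂ) = Ω / (2 * lam) := by
        rw [hrC]
        push_cast
        rw [la_coe, mul_div_mul_right _ _ hr0]
        rfl
      have e2 : Ω * ((u * r : eis) : ℂ) / ((n * (n + 1) : ℕ) : ℂ) = Ω * (u : ℂ) / (2 * lam) := by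
        rw [hrC]
        push_cast
        rw [la_coe, ← mul_assoc, mul_div_mul_right _ _ hr0]
        rfl
      rw [e1, e2] at h3
      have h4 := h3.uniq (rl_six h hσ)
      have h5 : (2 * la : eis) ≠ 0 := fun h0 => hlaz (by rw [h0]; rfl)
      have h6 : Ω * ((u - 1 : eis) : ℂ) / ((2 * la : eis) : ℂ) ∈ L.lattice := by
        have e3 : Ω * ((u - 1 : eis) : ℂ) / ((2 * la : eis) : ℂ) =
            Ω * (u : ℂ) / (2 * lam) - Ω / (2 * lam) := by
          push_cast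
          rw [la_coe]
          have t2 : ((2 : eis) : ℂ) = 2 := rfl
          rw [t2]
          ring
        rw [e3]
        exact h4
      rw [Ideal.mem_span_singleton]
      exact (div_iff4 h h5 _).1 h6
    have hu3 : ((starRingEnd ℂ) (fp 1 θ u)) ^ 2 = 1 := by
      have h0 : fp 1 θ u ≠ 0 := fun h1 => (f3 u).1 h1 hu1
      have hx : (u : ℂ) ≠ 0 := by
        intro hx
        apply h0
        unfold fp
        rw [hx, zero_pow one_ne_zero, div_zero]
      have h1 : fp 1 θ u = 0 ∨ fp 1 θ u = 1 ∨ fp 1 θ u = -1 := by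
        unfold fp
        rw [pow_one]
        rcases hv.pm u hu6 with h1 | h1 | h1
        · left; rw [h1, zero_div]
        · right; left; rw [h1, div_self hx]
        · right; right; rw [h1, neg_div, div_self hx]
      rcases h1 with h1 | h1 | h1
      · exact absurd h1 h0
      · rw [h1, map_one, one_pow]
      · rw [h1, map_neg, map_one]; norm_num
    have hS2 : σ S ^ 2 = S ^ 2 := by
      have e := congrArg (fun t => t ^ 2) hu2
      simp only [mul_pow, hu3, one_mul] at e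
      exact e
    rw [g3, div_pow, map_div₀, map_pow, hS2]
    congr 1
    simp only [map_pow, map_mul, map_sub, map_natCast, map_ofNat]

/-- **the square of the central value over the period is rational** -/
theorem sq_rat {q : Ideal eis} (hq6 : q ≤ sp (2 * la)) {θ : Ideal eis → ℂ} (hθ : HC 1 q θ)
    (hv : Pm6 θ) {F : ℂ → ℂ} (hF1 : Differentiable ℂ F)
    (hF2 : ∀ z : ℂ, 3 / 2 < z.re → HasSum (fun I : Ideal eis => θ I * (nm I : ℂ) ^ (-z)) (F z))
    (hreal : (starRingEnd ℂ) (F 1) = F 1) (h : C4 L Ω)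
    (hΩr : (starRingEnd ℂ) (Ω ^ 2) = Ω ^ 2) : ∃ r : ℚ, F 1 ^ 2 = r * Ω ^ 2 := by
  obtain ⟨h1, h2⟩ := sq_fix hq6 hθ hv hF1 hF2 h
  rw [hreal] at h1 h2
  have hΩ := h.lat.ne
  obtain ⟨r, hr⟩ := rat_of_fixed_om h1 (by
    rw [div_pow, map_div₀, map_pow, hreal, hΩr]) h2
  refine ⟨r, ?_⟩
  rw [← hr]
  field_simp

end Pool.Agent.L0h4.AP.E
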