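import Pool.Agent.L0h4.AP.Val

/-!
# The squares of the central values of all the quadratic twists
-/

set_option autoImplicit false
set_option maxHeartbeats 4000000
set_option linter.unusedVariables false
set_option linter.unusedSectionVars false

open scoped Classical

namespace Pool.Agent.L0h4.AP

section

open Pool.Agent.Y698 Pool.Agent.Y698.SG Pool.Agent.L0h4.TW Pool.Agent.L0h4.TA
open Pool.Agent.L0h1.KD
open WeierstrassCurve

/-- the incomplete `L`-series of the twist -/
theorem lfun' {S : Finset ℕ} (hS : ∀ q ∈ S, Pool.Agent.L0h4.TW.Od q) {j : ℕ} (hj : ∏ q ∈ S, q = 1 + 4 * j)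
    (h7S : 7 ∉ S) {f : ℂ → ℂ} (hf : Differentiable ℂ f)
    (g2 : ∀ z : ℂ, 3 / 2 < z.re → HasProd (fun p : Nat.Primes =>
      (1 - bc p * ((∏ q ∈ S, qch q (p : ℕ)) * ((p : ℕ) : ℂ) ^ (-z)) +
      ec p * ((∏ q ∈ S, qch q (p : ℕ)) * ((p : ℕ) : ℂ) ^ (-z)) ^ 2)⁻¹) (f z)) :
    ∃ F : ℂ → ℂ, Differentiable ℂ F ∧
      (∀ s : ℂ, (3 : ℝ) / 2 < s.re → HasProd
        (tg (-35 * ((1 + 4 * j : ℕ) : ℤ) ^ 2) (-98 * ((1 + 4 * j : ℕ) : ℤ) ^ 3) s) (F s)) ∧
      ∃ ε : ℂ, (ε = 1 ∨ ε = -1) ∧ F 1 = f 1 * e2 ε 1 := by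
  set n : ℤ := ((1 + 4 * j : ℕ) : ℤ) with hn
  set ε : ℕ → ℂ := fun p => ∏ q ∈ S, qch q (p : ℤ) with hε
  have hSn : ∀ q ∈ S, (q : ℤ) ∣ n := by
    intro q hq
    rw [hn, ← hj]
    exact_mod_cast Finset.dvd_prod_of_mem _ hq
  have hnS : ∀ p : ℕ, p.Prime → (p : ℤ) ∣ n → p ∈ S := by
    intro p hp h
    by_contra h1
    rw [hn, ← hj] at h
    exact not_dvd_prodX hS hp h1 (by exact_mod_cast h)
  have hsq : ∀ p : ℕ, p.Prime → p ∉ S → ε p ^ 2 = 1 := by
    intro p hp hpS
    refine qprod_sq (fun q hq => (hS q hq).pr) fun q hq hd => ?_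
    have h1 : q ∣ p := by exact_mod_cast hd
    exact hpS (((Nat.prime_dvd_prime_iff_eq (hS q hq).pr hp).1 h1) ▸ hq)
  have h2S : 2 ∉ S := by
    intro h
    have h1 := hSn 2 h
    rw [hn] at h1
    omega
  have hε2 : ε 2 = 1 ∨ ε 2 = -1 := sq_eq_one_iff_of_side_aux (hsq 2 Nat.prime_two h2S)
  refine ⟨fun s => f s * e2 (ε 2) s, hf.mul (e2_diff _), ?_, ?_⟩
  · intro s hs
    have h1 := g2 s hs
    have h2 : HasProd (fun p : Nat.Primes => if p = ⟨2, Nat.prime_two⟩ then e2 (ε 2) s else 1)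
        (e2 (ε 2) s) := hasProd_ite_eq _ _
    have h3 := h1.mul h2
    have h4 : ∀ p : Nat.Primes, (1 - bc p * (ε p * ((p : ℕ) : ℂ) ^ (-s)) +
        ec p * (ε p * ((p : ℕ) : ℂ) ^ (-s)) ^ 2)⁻¹ *
        (if p = ⟨2, Nat.prime_two⟩ then e2 (ε 2) s else 1) =
        tg (-35 * n ^ 2) (-98 * n ^ 3) s p := by
      intro P
      have hP : (P = ⟨2, Nat.prime_two⟩) ↔ (P : ℕ) = 2 :=
        ⟨fun h => by rw [h], fun h => Subtype.ext h⟩
      have hp : (P : ℕ).Prime := P.2
      simp only [hP]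
      clear hP
      revert hp
      generalize (P : ℕ) = p
      intro hp
      have hpi : Prime (p : ℤ) := Nat.prime_iff_prime_int.1 hp
      rcases eq_or_ne p 2 with h2 | h2
      · subst h2
        have hR : tg (-35 * n ^ 2) (-98 * n ^ 3) s 2 = 1 := by
          unfold tg
          exact if_neg fun h => h.2 (Dvd.intro _ rfl)
        rw [hR, if_pos rfl]
        have hec : ec 2 = 2 := by
          unfold ec
          norm_num
        have e : 1 - bc 2 * (ε 2 * ((2 : ℕ) : ℂ) ^ (-s)) + ec 2 * (ε 2 * ((2 : ℕ) : ℂ) ^ (-s)) ^ 2 =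
            e2 (ε 2) s := by
          unfold e2
          rw [hec, bc_two, mul_pow, hsq 2 Nat.prime_two h2S]
          push_cast
          ring
        rw [e]
        exact inv_mul_cancel₀ (e2_ne hε2 hs)
      · rw [if_neg h2, mul_one]
        by_cases hb : p = 7 ∨ (p : ℤ) ∣ n
        · have hR : tg (-35 * n ^ 2) (-98 * n ^ 3) s p = 1 := by
            unfold tg
            refine if_neg ?_
            rintro ⟨_, h⟩
            apply h
            rw [disc_eq, dvd_neg]
            rcases hb with h4 | h4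
            · subst h4
              exact Dvd.dvd.mul_left (Dvd.dvd.mul_right (dvd_pow (by norm_num) (by norm_num)) _) _
            · exact Dvd.dvd.mul_left (Dvd.dvd.mul_left (dvd_pow h4 (by norm_num)) _) _
          rw [hR]
          rcases hb with h4 | h4
          · subst h4
            have hb7 : bc 7 = 0 := by
              have := bc_seven 0
              simpa using this
            have he7 : ec 7 = 0 := by unfold ec; exact if_pos rfl
            rw [hb7, he7]
            simp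
          · have h5 := hnS p hp h4
            have h6 : ε p = 0 := by
              rw [hε]
              refine Finset.prod_eq_zero h5 ?_
              unfold qch
              rw [Int.cast_eq_zero]
              have := hp
              have := Fact.mk hp
              rw [jacobiSym.eq_zero_iff_not_coprime]
              simpa using hp.ne_one
            rw [h6]
            simp
        · push Not at hb
          obtain ⟨h7, h3⟩ := hb
          have hpS : p ∉ S := fun h => h3 (hSn p h)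
          have g2' : ¬ (p : ℤ) ∣ 2 := by
            intro h
            have : p ∣ 2 := by exact_mod_cast h
            exact h2 ((Nat.prime_dvd_prime_iff_eq hp Nat.prime_two).1 this)
          have g7' : ¬ (p : ℤ) ∣ 7 := by
            intro h
            have : p ∣ 7 := by exact_mod_cast h
            exact h7 ((Nat.prime_dvd_prime_iff_eq hp (by norm_num)).1 this)
          have hcond : p.Prime ∧ ¬ ((p : ℤ) ∣ 2 * (-4 * (-35 * n ^ 2) ^ 3 - 27 * (-98 * n ^ 3) ^ 2)) := by
            refine ⟨hp, ?_⟩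
            rw [disc_eq, dvd_neg]
            intro h
            rcases hpi.dvd_or_dvd h with h5 | h5
            · exact g2' (hpi.dvd_of_dvd_pow h5)
            · rcases hpi.dvd_or_dvd h5 with h6 | h6
              · exact g7' (hpi.dvd_of_dvd_pow h6)
              · exact h3 (hpi.dvd_of_dvd_pow h6)
          unfold tg
          rw [if_pos hcond]
          have := Fact.mk hp
          have ht := trace_twX (ZMod p) hp h7 one_ne_zero (by rw [Nat.card_zmod, pow_one]) hS hpS hj
          have h2k : (2 : ZMod p) ≠ 0 := by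
            intro h
            have h' : ((2 : ℕ) : ZMod p) = 0 := by exact_mod_cast h
            rw [ZMod.natCast_eq_zero_iff] at h'
            exact h2 ((Nat.prime_dvd_prime_iff_eq hp Nat.prime_two).1 h')
          have hc := card_AP_EX (ZMod p) h2k (j : ℤ)
          have hc' : Nat.card (AP (EX (ZMod p) (j : ZMod p))) = Nat.card {q : ZMod p × ZMod p //
              q.2 ^ 2 = q.1 ^ 3 + ((-35 * n ^ 2 : ℤ) : ZMod p) * q.1 +
                ((-98 * n ^ 3 : ℤ) : ZMod p)} := by
            have e : n = 1 + 4 * (j : ℤ) := by rw [hn]; push_cast; ring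
            rw [e, ← hc]
            congr 3
            push_cast
            rfl
          rw [← hc']
          rw [Nat.card_zmod] at ht
          have hpw : W165.CE.pw (bc p) (ec p) 1 = bc p := rfl
          rw [hpw, pow_one] at ht
          have hec : ec p = (p : ℂ) := by unfold ec; exact if_neg h7
          have h9 : (p : ℂ) ^ (1 - 2 * s) = (p : ℂ) * ((p : ℂ) ^ (-s)) ^ 2 := by
            have hp0 : (p : ℂ) ≠ 0 := by exact_mod_cast hp.ne_zero
            rw [← Complex.cpow_nat_mul, sub_eq_add_neg, Complex.cpow_add _ _ hp0, Complex.cpow_one]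
            congr 2
            push_cast
            ring
          have h10 : ((p : ℂ) - (Nat.card (AP (EX (ZMod p) (j : ZMod p))) : ℂ)) = ε p * bc p := by
            rw [hε]
            push_cast at ht
            exact ht
          rw [h9, h10, hec, mul_pow, hsq p hp hpS]
          congr 1
          ring
    have h5 : HasProd (tg (-35 * n ^ 2) (-98 * n ^ 3) s ∘ ((↑) : {p : ℕ | p.Prime} → ℕ))
        (f s * e2 (ε 2) s) := by
      refine (congrArg (fun g => HasProd g (f s * e2 (ε 2) s)) (funext fun p => ?_)).mp h3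
      exact h4 p
    refine (hasProd_subtype_iff_of_mulSupport_subset ?_).1 h5
    intro m hm
    rw [Function.mem_mulSupport] at hm
    by_contra h6
    apply hm
    unfold tg
    rw [if_neg]
    rintro ⟨h7, _⟩
    exact h6 h7
  · exact ⟨ε 2, hε2, rfl⟩

end

open Pool.Agent.Y698 Pool.Agent.Y698.SG Pool.Agent.L0h4.TW Pool.Agent.L0h75.EV
open H667R3 Pool.Agent.W192.HK Pool.Agent.TH936.CM Pool.Agent.TH936.PU Pool.Agent.W245.EB
open Pool.Agent.L0h23.EV (ch AdmE)
open Pool.Agent.L0h1.EV (ch3 chE1 chE3 lfunE)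
open Pool.Agent.L0h1.KD (tg e2 lfun)

lemma t3_c4 (m : ℤ) : T3 (c4 m) := by
  unfold c4
  refine T3.int ?_
  generalize (m : ZMod 4) = x
  revert x
  decide

lemma t3_c8 (m : ℤ) : T3 (c8 m) := by
  unfold c8
  refine T3.int ?_
  generalize (m : ZMod 8) = x
  revert x
  decide

lemma t3_c8' (m : ℤ) : T3 (c8' m) := by
  unfold c8'
  refine T3.int ?_
  generalize (m : ZMod 8) = x
  revert x
  decide

/-- the twists by even discriminants -/
theorem gen_even {ψ : ℤ → ℂ} {k : ℕ} (hψ : Tp ψ k) (ht : ∀ m, T3 (ψ m)) {S : Finset ℕ}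
    (hS : ∀ q ∈ S, Od q) : ∃ F : ℂ → ℂ, Differentiable ℂ F ∧
      (∀ z : ℂ, 3 / 2 < z.re →
        HasProd (Ep (fun n => ψ (n : ℤ) * ∏ q ∈ S, qch q (n : ℤ)) z) (F z)) ∧ Sqv F := by
  have hk0 : k ≠ 0 := by have := hψ.pos; omega
  have hcop2 : ∀ q ∈ S, Nat.Coprime q (2 ^ k) := by
    intro q hq
    refine Nat.Coprime.pow_right _ ?_
    have := (hS q hq).odd
    exact Nat.Coprime.symm (Nat.coprime_two_left.2 (Nat.odd_iff.2 this))
  have hHC := prod_HCX hψ.hc S (fun q hq => ⟨hS q hq, hcop2 q hq⟩)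
  rw [mul_comm (∏ q ∈ S, q) (2 ^ k)] at hHC
  have hgn := gn_prod hS
  have hNc : IsCoprime fR ((2 ^ k * ∏ q ∈ S, q : ℕ) : RR) := by
    rw [Nat.cast_mul]
    refine IsCoprime.mul_right ?_ hgn.cop
    have h1 : IsCoprime ((7 : ℕ) : RR) ((2 ^ k : ℕ) : RR) :=
      cop_cast (Nat.Coprime.pow_right _ (by norm_num))
    have h2 : ((7 : ℕ) : RR) = fR * (-fR) := by
      have := fR_mul
      push_cast
      linear_combination this
    rw [h2] at h1
    exact h1.of_mul_left_left
  refine gen hHC hNc (f := fun n => ψ (n : ℤ) * ∏ q ∈ S, qch q (n : ℤ)) (fun I => rfl) ?_ ?_ ?_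
  · simp [qch_one, hψ.one]
  · intro m n
    push_cast
    rw [hψ.mul]
    simp only [qch_mul]
    rw [Finset.prod_mul_distrib]
    ring
  · exact fun n => (ht _).mul (T3.prod fun q _ => t3_qch q _)

/-- the twists by odd discriminants -/
theorem gen_odd {S : Finset ℕ} (hS : ∀ q ∈ S, Od q) : ∃ F : ℂ → ℂ, Differentiable ℂ F ∧
      (∀ z : ℂ, 3 / 2 < z.re → HasProd (Ep (fun n => ∏ q ∈ S, qch q (n : ℤ)) z) (F z)) ∧
      Sqv F := by
  rcases S.eq_empty_or_nonempty with hemp | ⟨q0, hq0⟩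
  · subst hemp
    simpa using gen_triv
  · set S' := S.erase q0 with hS'
    have hSS : insert q0 S' = S := Finset.insert_erase hq0
    have hq0' : q0 ∉ S' := Finset.notMem_erase _ _
    have hS'' : ∀ q ∈ S', Od q ∧ Nat.Coprime q q0 := by
      intro q hq
      rw [hS', Finset.mem_erase] at hq
      exact ⟨hS q hq.2, (Nat.coprime_primes (hS q hq.2).pr (hS q0 hq0).pr).2 hq.1⟩
    have hHC := prod_HCX (quad_HCX (hS q0 hq0)) S' hS''
    have eN : (∏ q ∈ S', q) * q0 = ∏ q ∈ S, q := by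
      rw [← hSS, Finset.prod_insert hq0', mul_comm]
    have eX : (fun I : Ideal RR => qch q0 (nI I) * ∏ q ∈ S', qch q (nI I)) =
        fun I => ∏ q ∈ S, qch q (nI I) := by
      funext I
      conv_rhs => rw [← hSS, Finset.prod_insert hq0']
    rw [eN, eX] at hHC
    have hN := gn_prod hS
    refine gen hHC hN.cop (f := fun n => ∏ q ∈ S, qch q (n : ℤ)) (fun I => rfl) ?_ ?_ ?_
    · simp [qch_one]
    · intro m n
      rw [← Finset.prod_mul_distrib]
      refine Finset.prod_congr rfl fun q _ => ?_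
      push_cast
      exact qch_mul _ _ _
    · exact fun n => T3.prod fun q _ => t3_qch q _

/-- **all the twists** -/
theorem sqD {D : ℕ} (hsf : Squarefree D) (h7 : ¬ 7 ∣ D) : ∃ f : ℂ → ℂ, Differentiable ℂ f ∧
    (∀ s : ℂ, (3 : ℝ) / 2 < s.re →
      HasProd (tg (-35 * (D : ℤ) ^ 2) (-98 * (D : ℤ) ^ 3) s) (f s)) ∧ Sqv f := by
  obtain ⟨w, hw⟩ := Pool.Agent.L0h4.TA.exists_w
  have h := Pool.Agent.L0h74.EV.qpw_of hw
  have hD4 : D % 4 ≠ 0 := by
    intro h4
    have h5 : 2 * 2 ∣ D := by omega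
    exact absurd (hsf 2 h5) (by rw [Nat.isUnit_iff]; norm_num)
  rcases (show D % 4 = 1 ∨ D % 4 = 3 ∨ D % 4 = 2 by omega) with h4 | h4 | h4
  · have hd := h.dt (D := D) (by omega) h7
    have hP := h.prod hsf
    obtain ⟨j, hj⟩ : ∃ j, D = 1 + 4 * j := ⟨D / 4, by omega⟩
    obtain ⟨F, g1, g2, g3⟩ := gen_odd hd.od
    obtain ⟨f, k1, k2, ε, hε, k3⟩ := lfun' hd.od (hP.symm.trans hj) (by
      intro h8
      exact (hd.od 7 h8).n7 rfl) g1 g2
    rw [← hj] at k2
    refine ⟨f, k1, k2, fun L Ω hL => ?_⟩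
    obtain ⟨r, hr⟩ := g3 L Ω hL
    have he : ∃ c : ℚ, e2 ε 1 = c := by
      unfold e2
      rw [Complex.cpow_neg, Complex.cpow_one]
      rcases hε with rfl | rfl
      · exact ⟨1, by norm_num⟩
      · exact ⟨2, by norm_num⟩
    obtain ⟨c, hc⟩ := he
    refine ⟨r * c ^ 2, ?_⟩
    rw [k3, mul_pow, hr, hc]
    push_cast
    ring
  · have hd := h.dt (D := D) (by omega) h7
    obtain ⟨F, g1, g2, g3⟩ := gen_even tp_c4 t3_c4 hd.od
    refine ⟨F, g1, lfunE ⟨hsf, Or.inr h4, h7⟩ (fun z hz => ?_), g3⟩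
    refine (congrArg (fun g => HasProd g (F z)) (funext fun p : Nat.Primes => ?_)).mp (g2 z hz)
    rw [← ch3 hd (h.prod hsf) h4 p.2]
    rfl
  · have eD : D = 2 * (D / 2) := by omega
    have hsf2 : Squarefree (D / 2) := by
      have := hsf
      rw [eD] at this
      exact Squarefree.squarefree_of_dvd (Dvd.intro_left _ rfl) this
    have h7' : ¬ 7 ∣ D / 2 := fun h' => h7 (by rw [eD]; exact Dvd.dvd.mul_left h' 2)
    have hd := h.dt (D := D / 2) (by omega) h7'
    have hP := h.prod hsf2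
    rcases (show D / 2 % 4 = 1 ∨ D / 2 % 4 = 3 by omega) with h5 | h5
    · obtain ⟨F, g1, g2, g3⟩ := gen_even tp_c8 t3_c8 hd.od
      refine ⟨F, g1, lfunE ⟨hsf, Or.inl h4, h7⟩ (fun z hz => ?_), g3⟩
      refine (congrArg (fun g => HasProd g (F z)) (funext fun p : Nat.Primes => ?_)).mp (g2 z hz)
      rw [← chE1 hd hP eD h5 p.2]
      rfl
    · obtain ⟨F, g1, g2, g3⟩ := gen_even tp_c8' t3_c8' hd.od
      refine ⟨F, g1, lfunE ⟨hsf, Or.inl h4, h7⟩ (fun z hz => ?_), g3⟩
      refine (congrArg (fun g => HasProd g (F z)) (funext fun p : Nat.Primes => ?_)).mp (g2 z hz)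
      rw [← chE3 hd hP eD h5 p.2]
      rfl

end Pool.Agent.L0h4.AP
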