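import Pool.Agent.L0h4.AP.Sq
import Pool.Agent.L0h1.EV.All7

/-!
# The squares of the central values of the quadratic twists
-/

set_option autoImplicit false
set_option linter.unusedSectionVars false

open Filter
open scoped Topology PeriodPair

namespace Pool.Agent.L0h4.AP

open Pool.Agent.Y698 Pool.Agent.Y698.SG Pool.Agent.L0h4.TW Pool.Agent.L0h75.EV
open H667R3 Pool.Agent.W192.HK Pool.Agent.TH936.CM Pool.Agent.TH936.PU Pool.Agent.W245.EB
open Pool.Agent.L0h23.EV (ch)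

/-- `0`, `1`, `-1` -/
def T3 (z : ℂ) : Prop := z = 0 ∨ z = 1 ∨ z = -1

lemma T3.mul {z w : ℂ} (hz : T3 z) (hw : T3 w) : T3 (z * w) := by
  unfold T3 at *
  rcases hz with rfl | rfl | rfl
  · left; ring
  · rw [one_mul]; exact hw
  · rcases hw with rfl | rfl | rfl
    · left; ring
    · right; right; ring
    · right; left; ring

lemma T3.prod {ι : Type*} {S : Finset ι} {g : ι → ℂ} (h : ∀ i ∈ S, T3 (g i)) :
    T3 (∏ i ∈ S, g i) :=
  Finset.prod_induction g T3 (fun _ _ ha hb => ha.mul hb) (Or.inr (Or.inl rfl)) h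

lemma T3.conj {z : ℂ} (h : T3 z) : (starRingEnd ℂ) z = z := by
  rcases h with rfl | rfl | rfl <;> simp

lemma T3.int {n : ℤ} (h : n = 0 ∨ n = 1 ∨ n = -1) : T3 (n : ℂ) := by
  rcases h with rfl | rfl | rfl
  · left; simp
  · right; left; simp
  · right; right; simp

lemma t3_e7 (g : RR) : T3 (e7 g) := by
  unfold e7
  refine T3.int ?_
  by_cases h : r7 g = 0
  · left
    rw [h]
    simp
  · right
    exact quadraticChar_dichotomy h

lemma t3_qch (q : ℕ) (m : ℤ) : T3 (qch q m) := by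
  unfold qch
  refine T3.int ?_
  rcases jacobiSym.trichotomy m q with h | h | h
  · exact Or.inl h
  · exact Or.inr (Or.inl h)
  · exact Or.inr (Or.inr h)

/-- the property of the central value -/
def Sqv (F : ℂ → ℂ) : Prop := ∀ (L : PeriodPair) (Ω : ℂ), LD L Ω → ∃ r : ℚ, F 1 ^ 2 = r * Ω ^ 2

/-- the L-function -/
theorem ex_F {q : Ideal RR} {θ : Ideal RR → ℂ} (hθ : HC 1 q θ) : ∃ F : ℂ → ℂ,
    Differentiable ℂ F ∧
    (∀ z : ℂ, 3 / 2 < z.re → HasSum (fun I : Ideal RR => θ I * (nm I : ℂ) ^ (-z)) (F z)) := by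
  classical
  have hbasic := Pool.Agent.W287.HK.h_basic
  have hcls := Pool.Agent.W571.HK.h_cls hbasic
  have hfp := Pool.Agent.W53.HK.h_fp hbasic hcls
  have hfpr := Pool.Agent.W366.HK.h_fpr hbasic hcls
  have hlat := Pool.Agent.W585.HK.h_lat hbasic
  have hker := Pool.Agent.W692.HK.h_ker hbasic hcls hfpr
  have hcnt := Pool.Agent.W584.HK.h_cnt hbasic hcls hfpr hlat hker
  have hdec := Pool.Agent.W856.HK.h_dec hbasic
  have hgauss := Pool.Agent.W636.HK.h_gauss hbasic hfp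
  have hpois := Pool.Agent.W348.HK.h_pois hbasic
  have htheta := Pool.Agent.TH936.HK.h_theta hbasic hfp hdec hgauss hpois hcnt
  have hafe := Pool.Agent.TH936.HK.h_afe hbasic hfp hcnt hgauss htheta
  obtain ⟨m, hh1, hpr, hsys⟩ := hcls RR al qr
  obtain ⟨s, hh, μ, T, -, hS⟩ := hsys q hθ.ne
  obtain ⟨F, g1, g2, -⟩ := lim_L hbasic hfp hcnt hdec hafe qr hθ hS
  exact ⟨F, g1, g2⟩

/-- the Euler product -/
noncomputable def Ep (f : ℕ → ℂ) (z : ℂ) (p : Nat.Primes) : ℂ :=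
  (1 - bc p * (f p * ((p : ℕ) : ℂ) ^ (-z)) + ec p * (f p * ((p : ℕ) : ℂ) ^ (-z)) ^ 2)⁻¹

lemma bc_conj {p : ℕ} (hp : p.Prime) : (starRingEnd ℂ) (bc p) = bc p := by
  by_cases h2 : p = 2
  · rw [h2, bc_two, map_one]
  by_cases h7 : p = 7
  · have := bc_seven 0
    rw [zero_add, pow_one] at this
    rw [h7, this, map_zero]
  · rw [bc_odd hp h2 h7, map_intCast]

lemma Ep_conj {f : ℕ → ℂ} (hf : ∀ n, T3 (f n)) (z : ℂ) (p : Nat.Primes) :
    (starRingEnd ℂ) (Ep f z p) = Ep f ((starRingEnd ℂ) z) p := by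
  have e1 : (starRingEnd ℂ) (((p : ℕ) : ℂ) ^ (-z)) = ((p : ℕ) : ℂ) ^ (-(starRingEnd ℂ) z) := by
    rw [← map_neg, Complex.cpow_conj _ _ (by
      rw [Complex.natCast_arg]
      exact Real.pi_ne_zero.symm), Complex.conj_natCast]
  have e2 : (starRingEnd ℂ) (ec p) = ec p := by
    unfold ec
    split_ifs <;> simp
  unfold Ep
  simp only [map_inv₀, map_add, map_sub, map_mul, map_pow, map_one, e1, e2, bc_conj p.2,
    (hf p).conj]

theorem real_F {f : ℕ → ℂ} (hf : ∀ n, T3 (f n)) {F : ℂ → ℂ} (hF : Differentiable ℂ F)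
    (h : ∀ z : ℂ, 3 / 2 < z.re → HasProd (Ep f z) (F z)) : (starRingEnd ℂ) (F 1) = F 1 := by
  set g : ℂ → ℂ := (starRingEnd ℂ) ∘ F ∘ (starRingEnd ℂ) with hg
  have hgd : Differentiable ℂ g := fun s => by
    have := (hF ((starRingEnd ℂ) s)).conj_conj
    rw [Complex.conj_conj] at this
    exact this
  have heq : g = F := by
    refine entire_eq hgd hF (3 / 2) fun z hz => ?_
    have h1 := h ((starRingEnd ℂ) z) (by rw [Complex.conj_re]; exact hz)
    have h2 := h1.map (starRingEnd ℂ) Complex.continuous_conj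
    have h3 : (⇑(starRingEnd ℂ) ∘ Ep f ((starRingEnd ℂ) z)) = Ep f z := by
      funext p
      rw [Function.comp_apply, Ep_conj hf, Complex.conj_conj]
    rw [h3] at h2
    exact h2.unique (h z hz)
  have := congrFun heq 1
  simp only [hg, Function.comp_apply, map_one] at this
  exact this

theorem gen {N : ℕ} {X : Ideal RR → ℂ} (hX : HC 0 (sp (N : RR)) X) (hc : IsCoprime fR (N : RR))
    {f : ℕ → ℂ} (hXf : ∀ I, X I = f (nI I)) (h1 : f 1 = 1) (hm : ∀ m n, f (m * n) = f m * f n)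
    (hv : ∀ n, T3 (f n)) : ∃ F : ℂ → ℂ, Differentiable ℂ F ∧
      (∀ z : ℂ, 3 / 2 < z.re → HasProd (Ep f z) (F z)) ∧ Sqv F := by
  have hbasic := Pool.Agent.W287.HK.h_basic
  have hcls := Pool.Agent.W571.HK.h_cls hbasic
  have hfp := Pool.Agent.W53.HK.h_fp hbasic hcls
  have hprod := Pool.Agent.W29.HK.h_prod hbasic hfp
  have hθ : HC 1 (sp fR * sp (N : RR)) (fun I => psi I * X I) :=
    hprod RR al qr 1 _ _ _ _ psi_HC hX ((Ideal.isCoprime_span_singleton_iff _ _).2 hc)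
  obtain ⟨F, g1, g2⟩ := ex_F hθ
  have hP : ∀ z : ℂ, 3 / 2 < z.re → HasProd (Ep f z) (F z) := by
    intro z hz
    have h3 := g2 z hz
    simp only [hXf] at h3
    exact prod_gen h1 hm h3
  refine ⟨F, g1, hP, fun L Ω hL => ?_⟩
  refine sq_rat hθ (fun x => ?_) g1 g2 (real_F hv g1 hP) hL
  show psi (sp x) * X (sp x) = 0 ∨ psi (sp x) * X (sp x) = x ∨ psi (sp x) * X (sp x) = -x
  rw [psi_sp, hXf]
  rcases (t3_e7 x).mul (hv (nI (sp x))) with h3 | h3 | h3
  · left; linear_combination (x : ℂ) * h3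
  · right; left; linear_combination (x : ℂ) * h3
  · right; right; linear_combination (x : ℂ) * h3

theorem gen_triv : ∃ F : ℂ → ℂ, Differentiable ℂ F ∧
      (∀ z : ℂ, 3 / 2 < z.re → HasProd (Ep (fun _ => 1) z) (F z)) ∧ Sqv F := by
  obtain ⟨F, g1, g2⟩ := ex_F psi_HC
  have hP : ∀ z : ℂ, 3 / 2 < z.re → HasProd (Ep (fun _ => 1) z) (F z) := by
    intro z hz
    have h3 := g2 z hz
    have h4 : (fun I : Ideal RR => psi I * (nm I : ℂ) ^ (-z)) =
        fun I : Ideal RR => psi I * (fun _ : ℕ => (1 : ℂ)) (nI I) * (nm I : ℂ) ^ (-z) := by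
      funext I
      rw [mul_one]
    rw [h4] at h3
    exact prod_gen (f := fun _ => 1) rfl (fun _ _ => (one_mul 1).symm) h3
  refine ⟨F, g1, hP, fun L Ω hL => ?_⟩
  refine sq_rat psi_HC (fun x => ?_) g1 g2
    (real_F (f := fun _ => 1) (fun _ => Or.inr (Or.inl rfl)) g1 hP) hL
  rw [psi_sp]
  rcases t3_e7 x with h3 | h3 | h3
  · left; rw [h3, zero_mul]
  · right; left; rw [h3, one_mul]
  · right; right; rw [h3]; ring

end Pool.Agent.L0h4.AP
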