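import Pool.Agent.L0h4.AP.SqE
import Pool.Agent.L0h4.AP.Val
import Pool.Agent.L0h1.F3S.Fin

/-!
# The squares of the central values of the twists of `X_0(36)`
-/

set_option autoImplicit false
set_option maxHeartbeats 400000
set_option linter.unusedVariables false
set_option linter.unusedSectionVars false

open scoped Classical

namespace Pool.Agent.L0h4.AP.E

open H667R3 Pool.Agent.W192.HK Pool.Agent.TH936.CM
open Pool.Agent.TH936.PU hiding pf
open Pool.Agent.Y696 Pool.Agent.Y715.T.Lat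
open Pool.Agent.L0h86.F3 hiding Bv_eq
open Pool.Agent.L0h86.F5 Pool.Agent.L0h4.T4 Pool.Agent.L0h4.T5
open Pool.Agent.L0h4.T3
open Pool.Agent.L0h1.F3R Pool.Agent.L0h1.F3S
open Pool.Agent.L0h1.KD (tg)
open Pool.Agent.L0h86.F1 (WM AdmM M1 M2)

/-- the property of the central value -/
def SqvE (F : ℂ → ℂ) : Prop := ∀ (L : PeriodPair) (Ω : ℂ), C4 L Ω →
  (starRingEnd ℂ) (Ω ^ 2) = Ω ^ 2 → ∃ r : ℚ, F 1 ^ 2 = r * Ω ^ 2

/-- the Euler product -/
noncomputable def EpE (f : ℕ → ℤ) (z : ℂ) (p : Nat.Primes) : ℂ :=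
  (1 - b6 p * (f (p : ℕ) * ((p : ℕ) : ℂ) ^ (-z)) +
      e6 p * (f (p : ℕ) * ((p : ℕ) : ℂ) ^ (-z)) ^ 2)⁻¹

lemma EpE_conj (f : ℕ → ℤ) (z : ℂ) (p : Nat.Primes) :
    (starRingEnd ℂ) (EpE f z p) = EpE f ((starRingEnd ℂ) z) p := by
  have e1 : (starRingEnd ℂ) (((p : ℕ) : ℂ) ^ (-z)) = ((p : ℕ) : ℂ) ^ (-(starRingEnd ℂ) z) := by
    rw [← map_neg, Complex.cpow_conj _ _ (by
      rw [Complex.natCast_arg]
      exact Real.pi_ne_zero.symm), Complex.conj_natCast]
  unfold EpE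
  simp only [map_inv₀, map_add, map_sub, map_mul, map_pow, map_one, e1, map_intCast]

theorem real_FE {f : ℕ → ℤ} {F : ℂ → ℂ} (hF : Differentiable ℂ F)
    (h : ∀ z : ℂ, 3 / 2 < z.re → HasProd (EpE f z) (F z)) : (starRingEnd ℂ) (F 1) = F 1 := by
  set g : ℂ → ℂ := (starRingEnd ℂ) ∘ F ∘ (starRingEnd ℂ) with hg
  have hgd : Differentiable ℂ g := fun s => by
    have := (hF ((starRingEnd ℂ) s)).conj_conj
    rw [Complex.conj_conj] at this
    exact this
  have heq : g = F := by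
    refine entire_eq hgd hF (3 / 2) fun z hz => ?_
    have h1 := h ((starRingEnd ℂ) z) (by rw [Complex.conj_re]; exact hz)
    have h2 := h1.map (starRingEnd ℂ) Complex.continuous_conj
    have h3 : (⇑(starRingEnd ℂ) ∘ EpE f ((starRingEnd ℂ) z)) = EpE f z := by
      funext p
      rw [Function.comp_apply, EpE_conj, Complex.conj_conj]
    rw [h3] at h2
    exact h2.unique (h z hz)
  have := congrFun heq 1
  simp only [hg, Function.comp_apply, map_one] at this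
  exact this

/-- the L-function -/
theorem ex_FE {q : Ideal eis} {θ : Ideal eis → ℂ} (hθ : HC 1 q θ) : ∃ F : ℂ → ℂ,
    Differentiable ℂ F ∧
    (∀ z : ℂ, 3 / 2 < z.re → HasSum (fun I : Ideal eis => θ I * (nm I : ℂ) ^ (-z)) (F z)) := by
  classical
  have hbasic := Pool.Agent.W287.HK.h_basic
  have hcls := Pool.Agent.W571.HK.h_cls hbasic
  have hfp := Pool.Agent.W53.HK.h_fp hbasic hcls
  have hfpr := Pool.Agent.W366.HK.h_fpr hbasic hcls
  have hlat := Pool.Agent.W585.HK.h_lat hbasic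
  have hker := Pool.Agent.W692.HK.h_ker hbasic hcls hfpr
  have hcnt := Pool.Agent.W584.HK.h_cnt hbasic hcls hfpr hlat hker
  have hdec := Pool.Agent.W856.HK.h_dec hbasic
  have hgauss := Pool.Agent.W636.HK.h_gauss hbasic hfp
  have hpois := Pool.Agent.W348.HK.h_pois hbasic
  have htheta := Pool.Agent.TH936.HK.h_theta hbasic hfp hdec hgauss hpois hcnt
  have hafe := Pool.Agent.TH936.HK.h_afe hbasic hfp hcnt hgauss htheta
  obtain ⟨m, hh1, hpr, hsys⟩ := hcls eis om qr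
  obtain ⟨s, hh, μ, T, -, hS⟩ := hsys q hθ.ne
  obtain ⟨F, g1, g2, -⟩ := lim_L hbasic hfp hcnt hdec hafe qr hθ hS
  exact ⟨F, g1, g2⟩

lemma psi6_val (I : Ideal eis) : ∃ x : eis, psi6 I = x := by
  unfold psi6
  split_ifs with h
  · exact ⟨_, rfl⟩
  · exact ⟨0, rfl⟩

/-- the property, for the product with a quadratic character -/
theorem pm6_mul {c : Ideal eis → ℂ} (hc : ∀ I, T3 (c I)) : Pm6 fun I => psi6 I * c I := by
  refine ⟨fun I => ?_, fun x hx => ?_⟩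
  · obtain ⟨x, hx⟩ := psi6_val I
    rcases hc I with h | h | h
    · exact ⟨0, by rw [h, mul_zero]; rfl⟩
    · exact ⟨x, by rw [h, mul_one, hx]⟩
    · exact ⟨-x, by rw [h, hx]; push_cast; ring⟩
  · show psi6 (sp x) * c (sp x) = 0 ∨ psi6 (sp x) * c (sp x) = x ∨ psi6 (sp x) * c (sp x) = -x
    rw [psi6_prim hx]
    rcases hc (sp x) with h | h | h
    · left; rw [h, mul_zero]
    · right; left; rw [h, mul_one]
    · right; right; rw [h]; ring

lemma XD_T3 (D : ℕ) (I : Ideal eis) : T3 (XD D I) := XD_val D I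

/-- the product of the characters -/
theorem hc_XD {g : eis} (hg : g ∣ (24 : ℕ)) {ψ : Ideal eis → ℂ} (hψ : HC 1 (sp g) ψ) {D : ℕ}
    (h : AdmC D) : ∃ q : Ideal eis, q ≤ sp g ∧ HC 1 q fun I => ψ I * XD D I := by
  by_cases h1 : D = 1
  · subst h1
    refine ⟨sp g, le_rfl, ?_⟩
    simp only [XD_one, mul_one]
    exact hψ
  · have hX : HC 0 (sp (D : eis)) (XD D) :=
      Pool.Agent.L0h80.F3.t_HCD (M2 D) (M1 D) D (admC_q h) admC_p (admC_prod h) (admC_ne h h1)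
    have hbasic := Pool.Agent.W287.HK.h_basic
    have hcls := Pool.Agent.W571.HK.h_cls hbasic
    have hfp := Pool.Agent.W53.HK.h_fp hbasic hcls
    have hprod := Pool.Agent.W29.HK.h_prod hbasic hfp
    have hco : Nat.Coprime 24 D := by
      have h2 : Nat.Coprime 2 D := by
        rw [Nat.coprime_two_left, Nat.odd_iff]
        exact h.m2
      have h3 : Nat.Coprime 3 D := (Nat.Prime.coprime_iff_not_dvd Nat.prime_three).2 h.n3
      have : (24 : ℕ) = 2 ^ 3 * 3 := by norm_num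
      rw [this]
      exact Nat.Coprime.mul_left (Nat.Coprime.pow_left 3 h2) h3
    have hco' : IsCoprime ((24 : ℕ) : eis) ((D : ℕ) : eis) := by
      have h4 := (Nat.isCoprime_iff_coprime.2 hco).map (Int.castRingHom eis)
      simpa using h4
    have hco2 : IsCoprime g (D : eis) := by
      obtain ⟨k, hk⟩ := hg
      rw [hk] at hco'
      exact hco'.of_mul_left_left
    have hθ : HC 1 (sp g * sp (D : eis)) fun I => ψ I * XD D I :=
      hprod eis om qr 1 _ _ _ _ hψ hX ((Ideal.isCoprime_span_singleton_iff _ _).2 hco2)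
    have hle : sp g * sp (D : eis) ≤ sp g := Ideal.mul_le_left
    exact ⟨sp g * sp (D : eis), hle, hθ⟩

lemma la_dvd (k : ℕ) (hk : k ∣ 8) : (k : eis) * la ∣ ((24 : ℕ) : eis) := by
  obtain ⟨m, hm⟩ := hk
  refine ⟨-la * m, ?_⟩
  have e : ((24 : ℕ) : eis) = ((8 : ℕ) : eis) * 3 := by push_cast; norm_num
  rw [e, hm]
  push_cast
  linear_combination (k : eis) * m * la_sq

theorem genE {q : Ideal eis} (hq6 : q ≤ sp (2 * la)) {θ : Ideal eis → ℂ} (hθ : HC 1 q θ)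
    (hv : Pm6 θ) {f : ℕ → ℤ} (hE : ∀ F : ℂ → ℂ, (∀ z : ℂ, 3 / 2 < z.re →
      HasSum (fun J : Ideal eis => θ J * (nm J : ℂ) ^ (-z)) (F z)) →
      ∀ z : ℂ, 3 / 2 < z.re → HasProd (EpE f z) (F z)) : ∃ F : ℂ → ℂ, Differentiable ℂ F ∧
      (∀ z : ℂ, 3 / 2 < z.re → HasProd (EpE f z) (F z)) ∧ SqvE F := by
  obtain ⟨F, g1, g2⟩ := ex_FE hθ
  refine ⟨F, g1, hE F g2, fun L Ω hL hr => ?_⟩
  exact sq_rat hq6 hθ hv g1 g2 (real_FE g1 (hE F g2)) hL hr

/-- `n = D` -/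
theorem sqM {D : ℕ} (h : AdmM D) : ∃ F : ℂ → ℂ, Differentiable ℂ F ∧
    (∀ s : ℂ, (3 : ℝ) / 2 < s.re → HasProd (tg 0 ((D : ℤ) ^ 3) s) (F s)) ∧ SqvE F := by
  have hC : AdmC D := ⟨h.sf, by have := h.m4; omega, h.n3⟩
  obtain ⟨q, h1, h2⟩ := hc_XD (g := 2 * la) (by simpa using la_dvd 2 (by norm_num)) t_PSI hC
  obtain ⟨F, g1, g2, g3⟩ := genE h1 h2 (pm6_mul (XD_T3 D)) (f := chM D)
    (fun F hF => (t_DEUR h hF).1)
  exact ⟨F, g1, lfunM h g2, g3⟩

/-- `n = -D` -/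
theorem sqN {D : ℕ} (h : AdmM D) : ∃ F : ℂ → ℂ, Differentiable ℂ F ∧
    (∀ s : ℂ, (3 : ℝ) / 2 < s.re → HasProd (tg 0 ((-(D : ℤ)) ^ 3) s) (F s)) ∧ SqvE F := by
  have hC : AdmC D := ⟨h.sf, by have := h.m4; omega, h.n3⟩
  obtain ⟨q, h1, h2⟩ := hc_XD (g := 4 * la) (by simpa using la_dvd 4 (by norm_num)) t_PS4 hC
  have h3 : (sp (4 * la) : Ideal eis) ≤ sp (2 * la) :=
    Ideal.span_singleton_le_span_singleton.2 ⟨2, by ring⟩
  have hc4 : ∀ I : Ideal eis, T3 (c4I I) := by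
    intro I
    unfold c4I
    refine T3.int ?_
    generalize ((Nat.card (eis ⧸ I) : ℕ) : ZMod 4) = x
    revert x
    decide
  have e : (fun J : Ideal eis => psi6 J * c4I J * XD D J) =
      fun J => psi6 J * (c4I J * XD D J) := by
    funext J
    ring
  obtain ⟨F, g1, g2, g3⟩ := genE (h1.trans h3) h2 (by
      rw [e]
      exact pm6_mul fun I => (hc4 I).mul (XD_T3 D I)) (f := chN D)
    (fun F hF => (t_DEURN D h F hF).1)
  exact ⟨F, g1, lfunN h g2, g3⟩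

/-- `n = -2 D` -/
theorem sqC {D : ℕ} (h : AdmC D) : ∃ F : ℂ → ℂ, Differentiable ℂ F ∧
    (∀ s : ℂ, (3 : ℝ) / 2 < s.re → HasProd (tg 0 ((-2 * (D : ℤ)) ^ 3) s) (F s)) ∧ SqvE F := by
  obtain ⟨q, h1, h2⟩ := hc_XD (g := 8 * la) (by simpa using la_dvd 8 (by norm_num))
    (t_PS8 (chr8_X8 D)) h
  have h3 : (sp (8 * la) : Ideal eis) ≤ sp (2 * la) :=
    Ideal.span_singleton_le_span_singleton.2 ⟨4, by ring⟩
  have hc8 : ∀ I : Ideal eis, T3 (c8I (chr8 D) I) := by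
    intro I
    unfold c8I chr8
    refine T3.int ?_
    generalize ((Nat.card (eis ⧸ I) : ℕ) : ZMod 8) = x
    split_ifs
    · revert x
      decide
    · revert x
      decide
  have e : (fun J : Ideal eis => psi6 J * c8I (chr8 D) J * XD D J) =
      fun J => psi6 J * (c8I (chr8 D) J * XD D J) := by
    funext J
    ring
  obtain ⟨F, g1, g2, g3⟩ := genE (h1.trans h3) h2 (by
      rw [e]
      exact pm6_mul fun I => (hc8 I).mul (XD_T3 D I)) (f := chC D)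
    (fun F hF => (t_DEURC D h F hF).1)
  exact ⟨F, g1, lfunC h g2, g3⟩

end Pool.Agent.L0h4.AP.E
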